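import Pool.Agent.W658.KG.Stm
import Pool.Agent.W801.OS.T_CMP

/-! # Comparison of the plane with the dislocated plane, `2 k + 1` arms -/

set_option autoImplicit false

namespace Pool.Agent.W658.KG
open H974 H906.Cyl
open Pool.Agent.H160R2.ML (nm)
open Pool.Agent.W801.OU (RZ LZ Dg nrm zp Cor bxz)
open Pool.Agent.W801.OU.TISO (Ri edz_sum dco_edz edz_eq)
open Pool.Agent.W801.OS (Adj Ok2 cr Pa Evn Gau kap unK unS Phi dsq Cnr S_DSQ)
open Pool.Agent.W801.OS.TCMP (ch ch_inj corners end_of nm_ch bxz_iff bxz_bound bxz_of_bound par pp pq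
  mem_zp lz_iff cor_of nrm_snd' nrm_fst' nbr sum_ind count)
open Pool.Agent.W808.KY (scy RB SEy uY H0 E0)

namespace TCMP

theorem mem_Wi {k i : ℕ} {R : ℤ} {F : Set Edg} {v : Vtx} :
    ch v ∈ Wi k i R F ↔ Reach (F ∩ bxz R) (tv k i) v := by
  constructor
  · rintro ⟨w, h, hw⟩
    have : v = w := ch_inj hw
    rw [this]; exact h
  · intro h
    exact ⟨v, h, rfl⟩

theorem Wi_ch {k i : ℕ} {R : ℤ} {F : Set Edg} {p : ℤ × ℤ} (h : p ∈ Wi k i R F) :
    ∃ v, Reach (F ∩ bxz R) (tv k i) v ∧ p = ch v := h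

theorem Wi_sub {k i : ℕ} (hi : i < k) {R : ℤ} {F : Set Edg} {p : ℤ × ℤ} (h : p ∈ Wi k i R F) :
    p ∈ Wk k R F := ⟨i, hi, h⟩

theorem tp_cases (k i : ℕ) : (2 * i ≤ k ∧ tp k i = (2 * (i : ℤ), 0)) ∨
    (k < 2 * i ∧ tp k i = (2 * (k : ℤ) + 1 - 2 * i, -1)) := by
  unfold tp scy
  by_cases h : 2 * i + 1 ≤ k + 1
  · left
    refine ⟨by omega, ?_⟩
    rw [if_pos h]
    simp only [Prod.mk.injEq]
    push_cast
    constructor
    · ring
    · trivial
  · right
    refine ⟨by omega, ?_⟩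
    rw [if_neg h]
    simp only [Prod.mk.injEq]
    push_cast
    constructor
    · ring
    · trivial

theorem ch_tv (k i : ℕ) : ch (tv k i) = tp k i := by
  unfold tv ch
  rcases tp_cases k i with ⟨-, h⟩ | ⟨-, h⟩ <;> rw [h] <;> simp only [Prod.mk.injEq] <;> omega

theorem nm_tv {k i : ℕ} (hi : i < k) : nm (tv k i) ≤ k + 1 := by
  have h1 := nm_ch (tv k i)
  rw [ch_tv] at h1
  have h4 : (i : ℤ) < k := by exact_mod_cast hi
  rcases tp_cases k i with ⟨h2, h3⟩ | ⟨h2, h3⟩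
  · rw [h3] at h1
    simp only at h1
    rw [abs_of_nonneg (by positivity : (0 : ℤ) ≤ 2 * (i : ℤ))] at h1
    simp only [abs_zero] at h1
    omega
  · rw [h3] at h1
    simp only at h1
    rw [abs_of_nonneg (by omega : (0 : ℤ) ≤ 2 * (k : ℤ) + 1 - 2 * i)] at h1
    simp only [abs_neg, abs_one] at h1
    omega

/-! ## the explored squares -/

/-- the data -/
structure Dt (k R : ℕ) (F : Set Edg) (m : ℤ × ℤ → ℤ) : Prop where
  k2 : 2 ≤ k
  hR : 40 * (k + 1) ≤ R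
  t3 : TK k R F
  ev : Evn (Wk k R F)
  o : (0, 0) ∈ Wk k R F
  g : Gau (Wk k R F) m
  b : ∀ v ∈ Wk k R F, |m v| ≤ R ∧ |Pool.Agent.W801.OS.kap m v| ≤ R
  tps : Tps k (Wk k R F) m

theorem m_tp {k R : ℕ} {F : Set Edg} {m : ℤ × ℤ → ℤ} (D : Dt k R F m) {i : ℕ} (hi : i < k) :
    m (tp k i) = if 2 * i ≤ k then 0 else 1 := by
  rcases tp_cases k i with ⟨h2, h3⟩ | ⟨h2, h3⟩
  · rw [h3, if_pos h2]
    exact (D.tps.up _ (by positivity) (by exact_mod_cast h2) (by omega)).2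
  · rw [h3, if_neg (by omega)]
    exact (D.tps.lo _ (by omega) (by omega) (by omega)).2

theorem tp_mem {k i : ℕ} {R : ℤ} {F : Set Edg} : tp k i ∈ Wi k i R F := by
  rw [← ch_tv]
  exact mem_Wi.2 Relation.ReflTransGen.refl

/-- `v` is a witness of the exploration of `e` -/
def Wit (k R : ℕ) (F : Set Edg) (v : ℤ × ℤ) (e : Edg) : Prop :=
  v ∈ Wk k R F ∧ Cnr v (e.1 + e.2.1) (dco e) ∧ (dco e < 0 → v ≠ (0, 0))

/-- explored edges -/
def Ex (k R : ℕ) (F : Set Edg) (e : Edg) : Prop := ∃ v, Wit k R F v e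

open Classical in
/-- the image of an explored edge -/
noncomputable def img (k R : ℕ) (F : Set Edg) (m : ℤ × ℤ → ℤ) (e : Edg) : Edg :=
  if h : Ex k R F e then
    edz (dsq m h.choose (e.1 + e.2.1) (dco e)).1 (dsq m h.choose (e.1 + e.2.1) (dco e)).2
  else e

section
variable {k R : ℕ} {F : Set Edg} {m : ℤ × ℤ → ℤ} (hD : S_DSQ) (D : Dt k R F m)
include hD D

theorem img_eq {v : ℤ × ℤ} {e : Edg} (h : Wit k R F v e) :
    img k R F m e = edz (dsq m v (e.1 + e.2.1) (dco e)).1 (dsq m v (e.1 + e.2.1) (dco e)).2 := by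
  obtain ⟨q1, -⟩ := hD _ m D.ev D.o D.g
  have hx : Ex k R F e := ⟨v, h⟩
  unfold img
  rw [dif_pos hx]
  have h2 := hx.choose_spec
  rw [q1 _ v _ _ h2.1 h.1 h2.2.1 h.2.1 (fun hd => ⟨h2.2.2 hd, h.2.2 hd⟩)]

theorem dsq_snd {v : ℤ × ℤ} {e : Edg} (h : Wit k R F v e) :
    (dsq m v (e.1 + e.2.1) (dco e)).2 = dco e := by
  obtain ⟨-, -, -, -, q5, -⟩ := hD _ m D.ev D.o D.g
  exact (q5 v _ _ h.1 h.2.1 h.2.2).1

theorem img_inj {e e' : Edg} (h : Ex k R F e) (h' : Ex k R F e')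
    (he : img k R F m e = img k R F m e') : e = e' := by
  obtain ⟨-, q2, -⟩ := hD _ m D.ev D.o D.g
  obtain ⟨v, hv⟩ := h
  obtain ⟨v', hv'⟩ := h'
  rw [img_eq hD D hv, img_eq hD D hv'] at he
  obtain ⟨h1, h2⟩ := edz_inj he
  obtain ⟨h3, h4⟩ := q2 v v' _ _ _ _ hv.1 hv'.1 hv.2.1 hv'.2.1 hv.2.2 hv'.2.2 (Prod.ext h1 h2)
  rw [← edz_eq e, ← edz_eq e', h3, h4]

theorem img_mem {e : Edg} (he : e ∈ boxE R) (h : Ex k R F e) :
    img k R F m e ∈ boxE (4 * R) := by
  have hR := D.hR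
  obtain ⟨v, hv⟩ := h
  rw [img_eq hD D hv, ← bxz_iff]
  have h1 := D.b v hv.1
  have h2 := dsq_snd hD D hv
  have h3 : |(dsq m v (e.1 + e.2.1) (dco e)).1| ≤ |e.1 + e.2.1| + R + 1 := by
    unfold dsq unS
    split_ifs
    · have := abs_sub (e.1 + e.2.1) (m v)
      simp only
      omega
    · have := abs_sub (e.1 + e.2.1) (kap m v)
      simp only
      omega
    · have := abs_sub (e.1 + e.2.1) (kap m v)
      have h5 := abs_add_le (e.1 + e.2.1 - kap m v) 1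
      simp only [abs_one] at h5 ⊢
      omega
  have h4 : edz (e.1 + e.2.1) (dco e) ∈ bxz R := by rw [edz_eq, bxz_iff]; exact he
  have h5 := bxz_bound h4
  have h6 : (dsq m v (e.1 + e.2.1) (dco e)) =
    ((dsq m v (e.1 + e.2.1) (dco e)).1, dco e) := Prod.ext rfl h2
  rw [h2]
  apply bxz_of_bound
  push_cast
  omega

end

/-- an open edge at a vertex of the cluster is explored, seen from this vertex -/
theorem wit_of {k R : ℕ} (hk2 : 2 ≤ k) {F : Set Edg} (hT : TK k R F) {e : Edg} (he : e ∈ F)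
    {u w : Vtx} (hu : ch u ∈ Wk k R F)
    (h : (src e = u ∧ tgt e = w) ∨ (src e = w ∧ tgt e = u)) : Wit k R F (ch u) e := by
  obtain ⟨i, l, hi, hl, h1, h2⟩ := corners e
  refine ⟨hu, ?_, ?_⟩
  · unfold Cnr
    rcases h with ⟨h3, -⟩ | ⟨-, h3⟩
    · rw [← h3, h1]; simp only; omega
    · rw [← h3, h2]; simp only; omega
  · intro hd h0
    have h5 : (e.1 + e.2.1 = 0 ∨ e.1 + e.2.1 = -1) ∧ dco e = -1 := by
      rcases h with ⟨h3, -⟩ | ⟨-, h3⟩
      · rw [← h3, h1] at h0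
        simp only [Prod.mk.injEq] at h0
        omega
      · rw [← h3, h2] at h0
        simp only [Prod.mk.injEq] at h0
        omega
    obtain ⟨k1, -⟩ := hT
    rcases h5 with ⟨h6 | h6, h7⟩
    · have : e = edz 0 (-1) := by
        rw [← edz_eq e, h6, h7]
      rw [this] at he
      exact k1 0 (by omega) (by omega) he
    · have : e = edz (-1) (-1) := by
        rw [← edz_eq e, h6, h7]
      rw [this] at he
      exact k1 (-1) (by omega) (by omega) he

/-- steps of the cluster are allowed -/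
theorem ok2_of {k R : ℕ} (hk2 : 2 ≤ k) {F : Set Edg} (hT : TK k R F) {e : Edg} (he : e ∈ F)
    {u w : Vtx} (hu : ch u ∈ Wk k R F) (hw : ch w ∈ Wk k R F)
    (h : (src e = u ∧ tgt e = w) ∨ (src e = w ∧ tgt e = u)) : Ok2 (ch u) (ch w) := by
  have h1 := wit_of hk2 hT he hu h
  have h2 := wit_of hk2 hT he hw (by tauto)
  obtain ⟨i, l, hi, hl, h3, h4⟩ := corners e
  have h5 : ∃ i l : ℤ, (i = 0 ∨ i = 1) ∧ (l = 0 ∨ l = 1) ∧
      ch u = (e.1 + e.2.1 + i, dco e + l) ∧ ch w = (e.1 + e.2.1 + (1 - i), dco e + (1 - l)) := by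
    rcases h with ⟨h, h'⟩ | ⟨h, h'⟩
    · exact ⟨i, l, hi, hl, by rw [← h, h3], by rw [← h', h4]⟩
    · exact ⟨1 - i, 1 - l, by omega, by omega, by rw [← h', h4],
        by rw [← h, h3]; simp only [Prod.mk.injEq]; omega⟩
  obtain ⟨i, l, hi, hl, h5, h6⟩ := h5
  refine ⟨?_, ?_, ?_⟩
  · unfold Pool.Agent.W801.OS.Adj
    rw [h5, h6]
    simp only
    omega
  · rintro ⟨h7, h8⟩
    refine h1.2.2 ?_ h7
    rw [h5] at h7
    rw [h6] at h8
    simp only [Prod.mk.injEq] at h7 h8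
    omega
  · rintro ⟨h7, h8⟩
    refine h2.2.2 ?_ h7
    rw [h6] at h7
    rw [h5] at h8
    simp only [Prod.mk.injEq] at h7 h8
    omega

/-! ## the map of configurations -/

open Classical in
/-- the configuration of the dislocated plane -/
noncomputable def Gf (k R : ℕ) (F : Finset Edg) (m : ℤ × ℤ → ℤ) (H : Finset Edg) : Finset Edg :=
  (boxE (4 * R)).filter (fun e' => (∃ e ∈ boxE R, Ex k R F e ∧ img k R F m e = e' ∧
      ((e ∈ F ↔ par e) ↔ par e')) ∨
    ((¬ ∃ e ∈ boxE R, Ex k R F e ∧ img k R F m e = e') ∧ e' ∈ H))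

open Classical in
/-- the rest of the randomness -/
noncomputable def Kf (k R : ℕ) (F : Finset Edg) (m : ℤ × ℤ → ℤ) (H : Finset Edg) : Finset Edg :=
  (boxE R).filter (fun e => if Ex k R F e then img k R F m e ∈ H else e ∈ F)

theorem mem_Gf (hD : S_DSQ) {k R : ℕ} {F H : Finset Edg} {m : ℤ × ℤ → ℤ} (D : Dt k R F m)
    {e : Edg} (he : e ∈ boxE R) (h : Ex k R F e) :
    img k R F m e ∈ Gf k R F m H ↔ ((e ∈ F ↔ par e) ↔ par (img k R F m e)) := by
  classical
  unfold Gf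
  rw [Finset.mem_filter]
  constructor
  · rintro ⟨-, ⟨e2, he2, h2, h3, h4⟩ | ⟨h2, -⟩⟩
    · have := img_inj hD D h2 h h3
      subst this
      exact h4
    · exact absurd ⟨e, he, h, rfl⟩ h2
  · intro h2
    exact ⟨img_mem hD D he h, Or.inl ⟨e, he, h, rfl, h2⟩⟩

/-- propagation: two configurations with the same image have the same clusters and gauge -/
theorem prop (hD : S_DSQ) {k R : ℕ} {F H F' H' : Finset Edg} {m m' : ℤ × ℤ → ℤ} (D : Dt k R F m)
    (D' : Dt k R F' m') (hG : Gf k R F m H = Gf k R F' m' H') {j : ℕ} (hj : j < k) {v : Vtx}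
    (h : Reach (↑F ∩ bxz R) (tv k j) v) : ch v ∈ Wi k j R F' ∧ m (ch v) = m' (ch v) := by
  induction h with
  | refl => exact ⟨by rw [ch_tv]; exact tp_mem, by rw [ch_tv, m_tp D hj, m_tp D' hj]⟩
  | @tail u w h1 h2 ih =>
    obtain ⟨ih1, ih2⟩ := ih
    obtain ⟨e, ⟨heF, heB⟩, hst⟩ := h2
    have heF' : e ∈ F := heF
    have heB' : e ∈ boxE R := bxz_iff.1 heB
    have huW : ch u ∈ Wk k R F := Wi_sub hj (mem_Wi.2 h1)
    have w1 := wit_of D.k2 D.t3 heF huW hst
    have w2 : Wit k R F' (ch u) e := ⟨Wi_sub hj ih1, w1.2⟩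
    have x1 : Ex k R F e := ⟨_, w1⟩
    have x2 : Ex k R F' e := ⟨_, w2⟩
    have hk : kap m (ch u) = kap m' (ch u) := by unfold Pool.Agent.W801.OS.kap; rw [ih2]
    have hd : dsq m (ch u) (e.1 + e.2.1) (dco e) = dsq m' (ch u) (e.1 + e.2.1) (dco e) := by
      unfold dsq; rw [ih2, hk]
    have hi : img k R F m e = img k R F' m' e := by
      rw [img_eq hD D w1, img_eq hD D' w2, hd]
    have k1 := mem_Gf hD (H := H) D heB' x1
    have k2 := mem_Gf hD (H := H') D' heB' x2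
    rw [hG, hi] at k1
    have heF2 : e ∈ F' := (pp (k1.symm.trans k2)).1 heF'
    have hw : Reach (↑F ∩ bxz R) (tv k j) w := h1.tail ⟨e, ⟨heF, heB⟩, hst⟩
    have hw' : Reach (↑F' ∩ bxz R) (tv k j) w := (mem_Wi.1 ih1).tail ⟨e, ⟨heF2, heB⟩, hst⟩
    have hwW := Wi_sub hj (mem_Wi.2 hw)
    have hwW' := Wi_sub hj (mem_Wi.2 hw')
    refine ⟨mem_Wi.2 hw', ?_⟩
    rw [D.g.step _ _ huW hwW (ok2_of D.k2 D.t3 heF huW hwW hst),
      D'.g.step _ _ (Wi_sub hj ih1) hwW' (ok2_of D'.k2 D'.t3 heF2 (Wi_sub hj ih1) hwW' hst), ih2]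

/-- **injectivity** -/
theorem inj (hD : S_DSQ) {k R : ℕ} {F H F' H' : Finset Edg} {m m' : ℤ × ℤ → ℤ} (D : Dt k R F m)
    (D' : Dt k R F' m') (hF : F ⊆ boxE R) (hF' : F' ⊆ boxE R) (hH : H ⊆ boxE (4 * R))
    (hH' : H' ⊆ boxE (4 * R)) (hG : Gf k R F m H = Gf k R F' m' H')
    (hK : Kf k R F m H = Kf k R F' m' H') : F = F' ∧ H = H' := by
  classical
  have hW : Wk k R (↑F : Set Edg) = Wk k R (↑F' : Set Edg) := by
    ext p
    constructor
    · rintro ⟨j, hj, hp⟩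
      obtain ⟨v, hv, rfl⟩ := Wi_ch hp
      exact ⟨j, hj, (prop hD D D' hG hj hv).1⟩
    · rintro ⟨j, hj, hp⟩
      obtain ⟨v, hv, rfl⟩ := Wi_ch hp
      exact ⟨j, hj, (prop hD D' D hG.symm hj hv).1⟩
  have hm : ∀ p ∈ Wk k R (↑F : Set Edg), m p = m' p := by
    rintro p ⟨j, hj, hp⟩
    obtain ⟨v, hv, rfl⟩ := Wi_ch hp
    exact (prop hD D D' hG hj hv).2
  have hwit : ∀ (v : ℤ × ℤ) (e : Edg), Wit k R F v e ↔ Wit k R F' v e := by
    intro v e
    unfold Wit
    rw [hW]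
  have hex : ∀ e : Edg, Ex k R F e ↔ Ex k R F' e := by
    intro e
    unfold Ex
    simp only [hwit]
  have himg : ∀ e : Edg, Ex k R F e → img k R F m e = img k R F' m' e := by
    rintro e ⟨v, hv⟩
    have hv' := (hwit v e).1 hv
    rw [img_eq hD D hv, img_eq hD D' hv']
    have h1 := hm v hv.1
    have h2 : kap m v = kap m' v := by unfold Pool.Agent.W801.OS.kap; rw [h1]
    unfold dsq
    rw [h1, h2]
  have hFF : ∀ e ∈ boxE R, (e ∈ F ↔ e ∈ F') := by
    intro e he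
    by_cases hx : Ex k R F e
    · have hx' := (hex e).1 hx
      have k1 := mem_Gf hD (H := H) D he hx
      have k2 := mem_Gf hD (H := H') D' he hx'
      rw [hG, himg e hx] at k1
      exact pp (k1.symm.trans k2)
    · have hx' : ¬ Ex k R F' e := fun h => hx ((hex e).2 h)
      have h1 : e ∈ Kf k R F m H ↔ e ∈ Kf k R F' m' H' := by rw [hK]
      unfold Kf at h1
      rw [Finset.mem_filter, Finset.mem_filter, if_neg hx, if_neg hx'] at h1
      exact ⟨fun h => (h1.1 ⟨he, h⟩).2, fun h => (h1.2 ⟨he, h⟩).2⟩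
  have hHH : ∀ e' ∈ boxE (4 * R), (e' ∈ H ↔ e' ∈ H') := by
    intro e' he'
    by_cases hx : ∃ e ∈ boxE R, Ex k R F e ∧ img k R F m e = e'
    · obtain ⟨e, he, hx, rfl⟩ := hx
      have hx' := (hex e).1 hx
      have h1 : e ∈ Kf k R F m H ↔ e ∈ Kf k R F' m' H' := by rw [hK]
      unfold Kf at h1
      rw [Finset.mem_filter, Finset.mem_filter, if_pos hx, if_pos hx', ← himg e hx] at h1
      exact ⟨fun h => (h1.1 ⟨he, h⟩).2, fun h => (h1.2 ⟨he, h⟩).2⟩
    · have hx' : ¬ ∃ e ∈ boxE R, Ex k R F' e ∧ img k R F' m' e = e' := by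
        rintro ⟨e, he, h1, h2⟩
        exact hx ⟨e, he, (hex e).2 h1, by rw [himg e ((hex e).2 h1)]; exact h2⟩
      have h1 : e' ∈ Gf k R F m H ↔ e' ∈ Gf k R F' m' H' := by rw [hG]
      unfold Gf at h1
      rw [Finset.mem_filter, Finset.mem_filter] at h1
      have h2 : ¬ ∃ e ∈ boxE R, Ex k R F e ∧ img k R F m e = e' ∧
          ((e ∈ F ↔ par e) ↔ par e') := by
        rintro ⟨e, he, h3, h4, -⟩
        exact hx ⟨e, he, h3, h4⟩
      have h3 : ¬ ∃ e ∈ boxE R, Ex k R F' e ∧ img k R F' m' e = e' ∧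
          ((e ∈ F' ↔ par e) ↔ par e') := by
        rintro ⟨e, he, h3, h4, -⟩
        exact hx' ⟨e, he, h3, h4⟩
      constructor
      · intro h
        rcases (h1.1 ⟨he', Or.inr ⟨hx, h⟩⟩).2 with h4 | h4
        · exact absurd h4 h3
        · exact h4.2
      · intro h
        rcases (h1.2 ⟨he', Or.inr ⟨hx', h⟩⟩).2 with h4 | h4
        · exact absurd h4 h2
        · exact h4.2
  constructor
  · ext e
    constructor
    · intro h; exact (hFF e (hF h)).1 h
    · intro h; exact (hFF e (hF' h)).2 h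
  · ext e
    constructor
    · intro h; exact (hHH e (hH h)).1 h
    · intro h; exact (hHH e (hH' h)).2 h

/-! ## the event in the dislocated plane -/

theorem nm_le {k R : ℕ} (hR : 40 * (k + 1) ≤ R) {j : ℕ} (hj : j < k) {F : Set Edg} {v : Vtx}
    (h : Reach (F ∩ bxz R) (tv k j) v) : nm v ≤ R := by
  induction h with
  | refl =>
    have := nm_tv hj
    omega
  | tail _ h2 _ =>
    obtain ⟨e, ⟨-, h3, h4⟩, h5⟩ := h2
    rcases h5 with ⟨-, rfl⟩ | ⟨rfl, -⟩
    · exact h4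
    · exact h3

/-- a vertex of the cluster whose image is near the tip is inside the box -/
theorem near {k R : ℕ} {F : Set Edg} {m : ℤ × ℤ → ℤ} (D : Dt k R F m) {j : ℕ} (hj : j < k)
    {v : Vtx} (hv : ch v ∈ Wi k j R F) {s' d i l : ℤ} (hi : i = 0 ∨ i = 1) (hl : l = 0 ∨ l = 1)
    (hB : edz s' d ∈ bxz (R / 20 : ℕ)) (h : nrm {0} d (s' + i) (d + l) = Phi m (ch v)) :
    nm v < R := by
  have hR := D.hR
  have h1 := bxz_bound hB
  have h2 := D.b _ (Wi_sub hj hv)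
  have h3 := nm_ch v
  have h4 := nm_le D.hR hj (mem_Wi.1 hv)
  have h5 : (Phi m (ch v)).2 = d + l := by rw [← h, nrm_snd']
  have h6 : |(Phi m (ch v)).1| ≤ |s' + i| + 1 := by rw [← h]; exact nrm_fst' _ _ _
  have h7 : (Phi m (ch v)).2 = (ch v).2 := by unfold Phi; split_ifs <;> rfl
  have h8 : |(ch v).1| ≤ |(Phi m (ch v)).1| + |m (ch v)| + 1 := by
    unfold Phi unK
    split_ifs
    · simp only
      have := abs_add_le ((ch v).1 - m (ch v)) (m (ch v))
      rw [sub_add_cancel] at this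
      omega
    · simp only
      have := abs_add_le ((ch v).1 - m (ch v)) (m (ch v))
      rw [sub_add_cancel] at this
      omega
    · simp only
      have := abs_add_le ((ch v).1 - m (ch v) + 1) (m (ch v) - 1)
      have h9 := abs_sub (m (ch v)) 1
      rw [show (ch v).1 - m (ch v) + 1 + (m (ch v) - 1) = (ch v).1 by ring] at this
      simp only [abs_one] at h9
      omega
  have h9 : |s' + i| ≤ |s'| + 1 := by
    rcases hi with rfl | rfl
    · simp
    · have := abs_add_le s' 1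
      simpa using this
  have h10 : |d + l| ≤ |d| + 1 := by
    rcases hl with rfl | rfl
    · simp
    · have := abs_add_le d 1
      simpa using this
  rw [h7] at h5
  rw [h5] at h3
  have h11 : ((R / 20 : ℕ) : ℤ) * 20 ≤ R := by
    have := Nat.div_mul_le_self R 20
    exact_mod_cast this
  omega

/-- links of the small box at images of vertices -/
theorem tr (hD : S_DSQ) {k R : ℕ} {F H : Finset Edg} {m : ℤ × ℤ → ℤ} (D : Dt k R F m)
    {j : ℕ} (hj : j < k) {v : Vtx} (hv : ch v ∈ Wi k j R F) {s' d i l : ℤ} (hi : i = 0 ∨ i = 1)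
    (hl : l = 0 ∨ l = 1) (hB : edz s' d ∈ bxz (R / 20 : ℕ)) (hz : ¬ (d < 0 ∧ s' + 1 = 0))
    (hG : edz s' d ∈ Gf k R F m H ↔ ((s' + d) % 2 = 0 ↔ i = l))
    (h : nrm {0} d (s' + i) (d + l) = Phi m (ch v)) :
    ∃ w : Vtx, ch w ∈ Wi k j R F ∧ nrm {0} d (s' + (1 - i)) (d + (1 - l)) = Phi m (ch w) := by
  obtain ⟨q1, q2, q3, q4, q5, q6⟩ := hD _ m D.ev D.o D.g
  have hvW := Wi_sub hj hv
  obtain ⟨s, h1, h2, h3, h4⟩ := q6 (ch v) s' d i l hvW hi hl hz h
  have hn := near D hj hv hi hl hB h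
  obtain ⟨w, hw, hst⟩ := end_of (v := v) (s := s) (d := d) hi hl (Prod.ext h1 h2)
  have hW : Wit k R F (ch v) (edz s d) := by
    refine ⟨hvW, ?_, ?_⟩
    · rw [edz_sum, dco_edz]; unfold Cnr; omega
    · rw [dco_edz]; exact h3
  have hbox : edz s d ∈ bxz R := nbr hn hi hl (Prod.ext h1 h2) hw hst
  have hx : Ex k R F (edz s d) := ⟨_, hW⟩
  have himg : img k R F m (edz s d) = edz s' d := by
    rw [img_eq hD D hW, edz_sum, dco_edz, h4]
  have hm := mem_Gf hD (H := H) D (bxz_iff.1 hbox) hx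
  rw [himg, hG] at hm
  have hpar1 : par (edz s d) ↔ (s + d) % 2 = 0 := by unfold par; rw [edz_sum, dco_edz]
  have hpar2 : par (edz s' d) ↔ (s' + d) % 2 = 0 := by unfold par; rw [edz_sum, dco_edz]
  rw [hpar1, hpar2] at hm
  have hev := D.ev _ hvW
  rw [h1, h2] at hev
  have hik : (s + d) % 2 = 0 ↔ i = l := by omega
  have heF : edz s d ∈ F := by
    rw [hik] at hm
    exact pq hm
  have hwi : ch w ∈ Wi k j R F := mem_Wi.2 ((mem_Wi.1 hv).tail ⟨edz s d, ⟨heF, hbox⟩, hst⟩)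
  have hwW := Wi_sub hj hwi
  refine ⟨w, hwi, ?_⟩
  have hW2 := wit_of D.k2 D.t3 (u := w) (w := v) heF hwW hst.symm
  have hc := hW2.2.1
  have hne := hW2.2.2
  rw [edz_sum, dco_edz] at hc
  rw [dco_edz] at hne
  have h5 := (q5 (ch w) s d hwW hc hne).2.2
  have h6 : dsq m (ch w) s d = (s', d) := by
    rw [← h4]
    refine q1 _ _ _ _ hwW hvW hc ?_ (fun hd => ⟨hne hd, h3 hd⟩)
    unfold Cnr; omega
  rw [h6] at h5
  rw [← h5, hw]
  simp only
  congr 1
  ring

theorem sc0 (k : ℕ) : scy 0 k 0 (2 * 0) = (-1, 0) := by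
  unfold scy
  rw [if_pos (by omega)]
  simp

theorem sc2 {k : ℕ} (hk : 2 ≤ k) : scy 0 k 0 (2 * 1) = (1, 0) := by
  unfold scy
  rw [if_pos (by omega)]
  simp

theorem edz_E0 {s d : ℤ} : edz s d ∈ E0 ↔ d = -1 ∧ s = 0 := by
  show dco (edz s d) = -1 ∧ (edz s d).1 + (edz s d).2.1 = 0 ↔ _
  rw [edz_sum, dco_edz]

theorem edz_H0 {k : ℕ} {s d : ℤ} : edz s d ∈ H0 k ↔ ¬ (d = -1 ∧ 1 ≤ s ∧ s < k) := by
  show ¬ (dco (edz s d) = -1 ∧ 1 ≤ (edz s d).1 + (edz s d).2.1 ∧ (edz s d).1 + (edz s d).2.1 < k)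
    ↔ _
  rw [edz_sum, dco_edz]

/-- the cluster of the sector of the tip `j` in the small box consists of images -/
theorem cl (hD : S_DSQ) (hP : S_PH) {k R : ℕ} {F H : Finset Edg} {m : ℤ × ℤ → ℤ} (D : Dt k R F m)
    {j : ℕ} (hj : j < k) {x : ℤ × ℤ}
    (h : RB k (R / 20 : ℕ) (↑(Gf k R F m H)) (tp k j) x) :
    ∃ v : Vtx, ch v ∈ Wi k j R F ∧ x = Phi m (ch v) := by
  obtain ⟨r1, r2, r3, -⟩ := hP k _ m D.k2 D.ev D.g D.tps
  have key : ∀ {x y : ℤ × ℤ}, RB k (R / 20 : ℕ) (↑(Gf k R F m H)) x y →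
      ((∃ v : Vtx, ch v ∈ Wi k j R F ∧ x = Phi m (ch v)) ↔
        ∃ v : Vtx, ch v ∈ Wi k j R F ∧ y = Phi m (ch v)) := by
    intro x y h
    induction h with
    | rel x y h =>
      rw [lz_iff] at h
      obtain ⟨s, d, i, l, hi, hl, ⟨hB, hH⟩, hz, hG, hx, hy⟩ := h
      by_cases hE : edz s d ∈ E0
      · have hE' := edz_E0.1 hE
        obtain ⟨rfl, rfl⟩ := hE'
        have h1 : ((0 : ℤ) + -1) % 2 = 0 ↔ i = l := hG.1 (Or.inr hE)
        have hl1 : l = 1 := by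
          subst hi
          rcases hl with rfl | rfl
          · exact absurd (h1.2 rfl) (by norm_num)
          · rfl
        subst hi hl1
        have hx' : x = (-1, 0) := by
          rw [hx]; unfold nrm; simp
        have hy' : y = (1, -1) := by
          rw [hy]; unfold nrm; simp
        constructor
        · rintro ⟨v, hv, h2⟩
          exfalso
          refine r1 _ (Wi_sub hj hv) 0 (by omega) ?_
          rw [sc0, ← h2, hx']
        · rintro ⟨v, hv, h2⟩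
          exfalso
          refine r2 _ (Wi_sub hj hv) ?_
          rw [← h2, hy']
      · have hG' : edz s d ∈ Gf k R F m H ↔ ((s + d) % 2 = 0 ↔ i = l) := by
          rw [← hG]
          constructor
          · intro h; exact Or.inl h
          · intro h
            rcases h with h | h
            · exact h
            · exact absurd h hE
        constructor
        · rintro ⟨v, hv, h1⟩
          obtain ⟨w, hw, h2⟩ := tr hD D hj hv (Or.inl hi) hl hB hz hG' (by rw [← hx, h1])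
          exact ⟨w, hw, by rw [hy, h2]⟩
        · rintro ⟨v, hv, h1⟩
          have hG2 : edz s d ∈ Gf k R F m H ↔ ((s + d) % 2 = 0 ↔ 1 - i = 1 - l) := by
            rw [hG']
            have : (i = l) ↔ (1 - i = 1 - l) := by omega
            rw [this]
          obtain ⟨w, hw, h2⟩ := tr hD D hj hv (i := 1 - i) (l := 1 - l) (by omega) (by omega) hB hz
            hG2 (by rw [← hy, h1])
          refine ⟨w, hw, ?_⟩
          rw [hx, ← h2]
          congr 1 <;> ring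
    | refl x => exact Iff.rfl
    | symm x y _ ih => exact ih.symm
    | trans x y z _ _ ih1 ih2 => exact ih1.trans ih2
  refine (key h).1 ⟨tv k j, by rw [ch_tv]; exact tp_mem, ?_⟩
  rw [ch_tv]
  exact (r3 j hj).symm

/-- the first exit of the small box -/
theorem far (hD : S_DSQ) (hP : S_PH) {k R : ℕ} {F H : Finset Edg} {m : ℤ × ℤ → ℤ} (D : Dt k R F m)
    {j : ℕ} (hj : j < k) {v : Vtx} (h : Reach (↑F ∩ bxz R) (tv k j) v) :
    (∃ x : ℤ × ℤ, RB k (R / 20 : ℕ) (↑(Gf k R F m H)) (tp k j) x ∧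
      ∃ e ∉ bxz (R / 20 : ℕ), Cor {0} 0 e x ∨ Cor {0} 1 e x) ∨
    (RB k (R / 20 : ℕ) (↑(Gf k R F m H)) (tp k j) (Phi m (ch v)) ∧
      (v = tv k j ∨ ∃ s' d i l : ℤ, (i = 0 ∨ i = 1) ∧ (l = 0 ∨ l = 1) ∧
        edz s' d ∈ bxz (R / 20 : ℕ) ∧ nrm {0} d (s' + i) (d + l) = Phi m (ch v))) := by
  obtain ⟨q1, q2, q3, q4, q5, q6⟩ := hD _ m D.ev D.o D.g
  obtain ⟨r1, r2, r3, r4⟩ := hP k _ m D.k2 D.ev D.g D.tps
  induction h with
  | refl =>
    right
    refine ⟨?_, Or.inl rfl⟩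
    rw [ch_tv, r3 j hj]
    exact Relation.EqvGen.refl _
  | @tail u w h1 h2 ih =>
    rcases ih with ih | ⟨ih, -⟩
    · exact Or.inl ih
    obtain ⟨e, ⟨heF, heB⟩, hst⟩ := h2
    have heF' : e ∈ F := heF
    have huW : ch u ∈ Wk k R F := Wi_sub hj (mem_Wi.2 h1)
    have hwW : ch w ∈ Wk k R F := Wi_sub hj (mem_Wi.2 (h1.tail ⟨e, ⟨heF, heB⟩, hst⟩))
    have w1 := wit_of D.k2 D.t3 heF' huW hst
    have w2 := wit_of D.k2 D.t3 (u := w) (w := u) heF' hwW hst.symm
    obtain ⟨i, l, hi, hl, hu, hw⟩ : ∃ i l : ℤ, (i = 0 ∨ i = 1) ∧ (l = 0 ∨ l = 1) ∧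
        ch u = (e.1 + e.2.1 + i, dco e + l) ∧ ch w = (e.1 + e.2.1 + (1 - i), dco e + (1 - l)) := by
      obtain ⟨i, l, hi, hl, h3, h4⟩ := corners e
      rcases hst with ⟨h, h'⟩ | ⟨h, h'⟩
      · exact ⟨i, l, hi, hl, by rw [← h, h3], by rw [← h', h4]⟩
      · exact ⟨1 - i, 1 - l, by omega, by omega, by rw [← h', h4],
          by rw [← h, h3]; simp only [Prod.mk.injEq]; omega⟩
    obtain ⟨s', hs'⟩ : ∃ s', s' = (dsq m (ch u) (e.1 + e.2.1) (dco e)).1 := ⟨_, rfl⟩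
    have e1 : dsq m (ch u) (e.1 + e.2.1) (dco e) = (s', dco e) :=
      Prod.ext hs'.symm (dsq_snd hD D w1)
    have e2 : dsq m (ch w) (e.1 + e.2.1) (dco e) = (s', dco e) := by
      rw [← e1]
      exact q1 _ _ _ _ hwW huW w2.2.1 w1.2.1 (fun hd => ⟨w2.2.2 hd, w1.2.2 hd⟩)
    have p1 := q5 (ch u) _ _ huW w1.2.1 w1.2.2
    have p2 := (q5 (ch w) _ _ hwW w2.2.1 w2.2.2).2.2
    rw [e1] at p1
    rw [e2] at p2
    obtain ⟨-, hz, p1⟩ := p1
    rw [hu] at p1
    rw [hw] at p2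
    simp only at p1 p2 hz
    have e3 : s' + (e.1 + e.2.1 + i - (e.1 + e.2.1)) = s' + i := by ring
    have e4 : s' + (e.1 + e.2.1 + (1 - i) - (e.1 + e.2.1)) = s' + (1 - i) := by ring
    rw [e3, ← hu] at p1
    rw [e4, ← hw] at p2
    have himg : img k R F m e = edz s' (dco e) := by rw [img_eq hD D w1, e1]
    have hm := mem_Gf hD (H := H) D (bxz_iff.1 heB) ⟨_, w1⟩
    rw [himg] at hm
    have hpar1 : par e ↔ i = l := by
      have := D.ev _ huW
      rw [hu] at this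
      unfold par
      simp only at this
      omega
    have hpar2 : par (edz s' (dco e)) ↔ (s' + dco e) % 2 = 0 := by
      unfold par; rw [edz_sum, dco_edz]
    rw [hpar1, hpar2] at hm
    have hm2 : edz s' (dco e) ∈ Gf k R F m H ↔ ((s' + dco e) % 2 = 0 ↔ i = l) := by
      rw [hm]
      constructor
      · intro h; exact ⟨fun h5 => (h.2 h5).1 heF', fun h5 => h.1 ⟨fun _ => h5, fun _ => heF'⟩⟩
      · intro h; exact ⟨fun h5 => h.2 (h5.1 heF'), fun h5 => ⟨fun _ => h.1 h5, fun _ => heF'⟩⟩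
    -- not a hole
    have hH0 : edz s' (dco e) ∈ H0 k := by
      rw [edz_H0]
      rintro ⟨c1, c2, c3⟩
      obtain ⟨c4, c5⟩ := r4 (ch u) (e.1 + e.2.1) (dco e) s' huW w1.2.1 w1.2.2 c2 c3
        (by rw [e1, c1])
      have : e = edz s' (-1) := by
        rw [← edz_eq e, c4, c5]
      rw [this] at heF'
      exact D.t3.1 s' (by omega) c3 heF'
    -- not the open square
    have hE0 : edz s' (dco e) ∉ E0 := by
      rw [edz_E0]
      rintro ⟨c1, c2⟩
      rw [c1, c2] at p1 p2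
      rcases hi with rfl | rfl <;> rcases hl with rfl | rfl
      · refine r1 _ hwW 1 (by have := D.k2; omega) ?_
        rw [sc2 D.k2, ← p2]; unfold nrm; simp
      · refine r1 _ huW 0 (by omega) ?_
        rw [sc0, ← p1]; unfold nrm; simp
      · refine r1 _ hwW 0 (by omega) ?_
        rw [sc0, ← p2]; unfold nrm; simp
      · refine r1 _ huW 1 (by have := D.k2; omega) ?_
        rw [sc2 D.k2, ← p1]; unfold nrm; simp
    have hm3 : edz s' (dco e) ∈ (↑(Gf k R F m H) ∪ E0 : Set Edg) ↔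
        ((s' + dco e) % 2 = 0 ↔ i = l) := by
      rw [← hm2]
      constructor
      · rintro (h | h)
        · exact h
        · exact absurd h hE0
      · intro h; exact Or.inl h
    by_cases hB : edz s' (dco e) ∈ bxz (R / 20 : ℕ)
    · right
      refine ⟨ih.trans _ _ _ ?_, Or.inr ⟨s', dco e, 1 - i, 1 - l, by omega, by omega, hB, p2⟩⟩
      rcases hi with rfl | rfl
      · refine Relation.EqvGen.rel _ _ (lz_iff.2 ⟨s', dco e, 0, l, rfl, hl, ⟨hB, hH0⟩, hz, hm3,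
          p1.symm, p2.symm⟩)
      · refine Relation.EqvGen.symm _ _ (Relation.EqvGen.rel _ _ (lz_iff.2 ⟨s', dco e, 0, 1 - l,
          rfl, by omega, ⟨hB, hH0⟩, hz, ?_, ?_, ?_⟩))
        · rw [hm3]
          have : ((1 : ℤ) = l) ↔ (0 = 1 - l) := by omega
          rw [this]
        · rw [← p2]; ring_nf
        · rw [← p1]; ring_nf
    · left
      refine ⟨_, ih, edz s' (dco e), hB, ?_⟩
      have hz' : edz s' (dco e) ∉ zp ({0} : Set ℤ) := by
        rw [mem_zp, edz_sum, dco_edz]; exact hz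
      have := cor_of hz' hi hl
      rw [edz_sum, dco_edz, p1] at this
      exact this

theorem okk (hD : S_DSQ) (hP : S_PH) {k R : ℕ} {F H : Finset Edg} {m : ℤ × ℤ → ℤ}
    (D : Dt k R F m) : OK k (R / 20 : ℕ) (↑(Gf k R F m H) : Set Edg) := by
  obtain ⟨q1, q2, q3, q4, q5, q6⟩ := hD _ m D.ev D.o D.g
  obtain ⟨r1, r2, r3, r4⟩ := hP k _ m D.k2 D.ev D.g D.tps
  intro j hj
  refine ⟨?_, ?_⟩
  · intro d hd hne h
    obtain ⟨v, hv, h2⟩ := cl hD hP D hj h
    rcases Nat.even_or_odd' d with ⟨c, rfl | rfl⟩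
    · exact r1 _ (Wi_sub hj hv) c (by omega) h2.symm
    · have hc : c < k := by omega
      have h3 : Phi m (ch v) = Phi m (tp k c) := by
        rw [r3 c hc, ← h2]; rfl
      have h4 := q3 (ch v) (tp k c) (Wi_sub hj hv) (Wi_sub hc tp_mem) h3
      rw [← ch_tv] at h4
      have h5 := ch_inj h4
      subst h5
      exact D.t3.2.1 j c hj hc (by omega) (mem_Wi.1 hv)
  · obtain ⟨v, hv, hr⟩ := D.t3.2.2.1 j hj
    rcases far hD hP (H := H) D hj hr with h | ⟨-, h⟩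
    · exact h
    · exfalso
      have hR := D.hR
      rcases h with h | ⟨s', d, i, l, hi, hl, hB, h⟩
      · rw [h] at hv
        have := nm_tv hj
        omega
      · have := near D hj (mem_Wi.2 hr) hi hl hB h
        omega

end TCMP

open TCMP in
/-- **comparison of the plane with the dislocated plane** -/
theorem t_CMP : S_GAU → S_GB → S_COR → S_TPS → S_PH → Pool.Agent.W801.OS.S_DSQ → S_CMP := by
  classical
  intro hGA hGB hC hT hP hD k R hk hR
  have hex : ∀ F : Finset Edg, TK k R (↑F : Set Edg) →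
      ∃ m : ℤ × ℤ → ℤ, Dt k R (↑F : Set Edg) m := by
    intro F hF
    obtain ⟨h1, h2, h3, h4, h5, h6⟩ := hC k R (↑F : Set Edg) hk
      (by exact_mod_cast (by omega : k + 1 ≤ R)) hF
    obtain ⟨m, hm⟩ := hGA _ h1 h2 h3
    refine ⟨m, ⟨hk, hR, hF, h1, h3.1, hm, ?_, ?_⟩⟩
    · exact hGB _ m R h1 h3 hm (by exact_mod_cast (by omega : 1 ≤ R)) (fun u hu => by
        have := h4 u hu
        have := abs_nonneg u.2
        omega)
    · exact hT k _ m hk hm (fun i hi => Wi_sub hi (h5 i hi)) h6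
  obtain ⟨mf, hmf⟩ : ∃ mf : Finset Edg → ℤ × ℤ → ℤ, ∀ F : Finset Edg, TK k R (↑F : Set Edg) →
      Dt k R (↑F : Set Edg) (mf F) := by
    refine ⟨fun F => if h : TK k R (↑F : Set Edg) then (hex F h).choose else 0, fun F hF => ?_⟩
    simp only [dif_pos hF]
    exact (hex F hF).choose_spec
  refine count (boxE R) (boxE (4 * R)) _ _
    (fun F H => (Gf k R F (mf F) H, Kf k R F (mf F) H)) ?_ ?_
  · intro F H hF hH hA
    exact ⟨Finset.filter_subset _ _, okk hD hP (hmf F hA), Finset.filter_subset _ _⟩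
  · intro F H F' H' hF hH hF' hH' hA hA' he
    have h1 := congrArg Prod.fst he
    have h2 := congrArg Prod.snd he
    exact inj hD (hmf F hA) (hmf F' hA') hF hF' hH hH' h1 h2

end Pool.Agent.W658.KG
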