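import Pool.Agent.W658.KG.Stm
import Pool.Agent.W801.OS.T_COR

/-!
# The clusters of the `2 k + 1` arm event
-/

set_option autoImplicit false

namespace Pool.Agent.W658.KG
open H974 H906.Cyl
open Pool.Agent.H160R2.ML (nm)
open Pool.Agent.W801.OU (RZ LZ Dg nrm zp Cor bxz)
open Pool.Agent.W801.OS (Adj Ok2 cr Pa Evn Gau kap unK unS Phi dsq Cnr)
open Pool.Agent.W808.KY (scy RB SEy uY H0 E0)

namespace TCOR

open Pool.Agent.W801.OS.TCOR (pt pt_inj nm_lt adj_of ok)

/-- the vertices outside the box are not in `W` -/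
def Outs (R : ℤ) (W : Set (ℤ × ℤ)) : Prop :=
  ∀ v : Vtx, (v.1 < -R ∨ R < v.1 ∨ v.2 < -R ∨ R < v.2) → pt v ∉ W

theorem Pa.trans {W : Set (ℤ × ℤ)} {a b c : ℤ × ℤ} (h1 : Pa W a b) (h2 : Pa W b c) : Pa W a c := by
  induction h2 with
  | nil _ => exact h1
  | cons v w _ hw ha ih => exact Pa.cons _ _ _ ih hw ha

theorem Pa.one {W : Set (ℤ × ℤ)} {a b : ℤ × ℤ} (ha : a ∉ W) (hb : b ∉ W) (h : Pool.Agent.W801.OS.Adj a b) :
    Pa W a b := Pa.cons _ _ _ (Pa.nil a ha) hb h

theorem up {R : ℤ} {W : Set (ℤ × ℤ)} (hW : Outs R W) {x y : ℤ} (hx : x < -R ∨ R < x) (n : ℕ) :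
    Pa W (pt (x, y)) (pt (x, y + n)) := by
  induction n with
  | zero =>
    rw [Nat.cast_zero, add_zero]
    refine Pa.nil _ (hW _ ?_)
    simp only
    omega
  | succ n ih =>
    refine Pa.cons _ _ _ ih (hW _ ?_) ?_
    · simp only
      omega
    · unfold Pool.Agent.W801.OS.Adj pt
      simp only
      push_cast
      constructor <;> omega

theorem right {R : ℤ} {W : Set (ℤ × ℤ)} (hW : Outs R W) {x y : ℤ} (hy : y < -R ∨ R < y) (n : ℕ) :
    Pa W (pt (x, y)) (pt (x + n, y)) := by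
  induction n with
  | zero =>
    rw [Nat.cast_zero, add_zero]
    refine Pa.nil _ (hW _ ?_)
    simp only
    omega
  | succ n ih =>
    refine Pa.cons _ _ _ ih (hW _ ?_) ?_
    · simp only
      omega
    · unfold Pool.Agent.W801.OS.Adj pt
      simp only
      push_cast
      constructor <;> omega

/-- column to the corner -/
theorem up' {R : ℤ} {W : Set (ℤ × ℤ)} (hW : Outs R W) {x y : ℤ} (hx : x < -R ∨ R < x)
    (hy : y ≤ R + 1) : Pa W (pt (x, y)) (pt (x, R + 1)) := by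
  obtain ⟨n, hn⟩ := Int.eq_ofNat_of_zero_le (show 0 ≤ R + 1 - y by omega)
  have h := up hW (x := x) (y := y) hx n
  have e : y + n = R + 1 := by omega
  rw [e] at h
  exact h

theorem right' {R : ℤ} {W : Set (ℤ × ℤ)} (hW : Outs R W) {x y : ℤ} (hy : y < -R ∨ R < y)
    (hx : x ≤ R + 1) : Pa W (pt (x, y)) (pt (R + 1, y)) := by
  obtain ⟨n, hn⟩ := Int.eq_ofNat_of_zero_le (show 0 ≤ R + 1 - x by omega)
  have h := right hW (x := x) (y := y) hy n
  have e : x + n = R + 1 := by omega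
  rw [e] at h
  exact h

/-- from the boundary of the box to the corner -/
theorem ring {R : ℤ} {W : Set (ℤ × ℤ)} (hW : Outs R W) (hR : 1 ≤ R) {q : Vtx} (hq : nm q = R)
    (hqW : pt q ∉ W) : Pa W (pt q) (pt (R + 1, R + 1)) := by
  obtain ⟨a, b⟩ := q
  have h1 := nm_lt (le_of_eq hq)
  simp only at h1
  have h2 : a = R ∨ a = -R ∨ b = R ∨ b = -R := by
    unfold nm at hq
    simp only at hq
    rcases max_choice |a| |b| with h | h
    · rw [h] at hq
      rcases abs_eq (by omega : 0 ≤ R) |>.1 hq with h | h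
      · exact Or.inl h
      · exact Or.inr (Or.inl h)
    · rw [h] at hq
      rcases abs_eq (by omega : 0 ≤ R) |>.1 hq with h | h
      · exact Or.inr (Or.inr (Or.inl h))
      · exact Or.inr (Or.inr (Or.inr h))
  rcases h2 with h2 | h2 | h2 | h2
  · have s1 : Pa W (pt (a, b)) (pt (R + 1, b)) := by
      refine Pa.one hqW (hW _ ?_) ?_
      · simp only
        omega
      · unfold Pool.Agent.W801.OS.Adj pt
        simp only
        constructor <;> omega
    exact Pa.trans s1 (up' hW (by omega) (by omega))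
  · have s1 : Pa W (pt (a, b)) (pt (-R - 1, b)) := by
      refine Pa.one hqW (hW _ ?_) ?_
      · simp only
        omega
      · unfold Pool.Agent.W801.OS.Adj pt
        simp only
        constructor <;> omega
    exact Pa.trans (Pa.trans s1 (up' hW (by omega) (by omega)))
      (right' hW (by omega) (by omega))
  · have s1 : Pa W (pt (a, b)) (pt (a, R + 1)) := by
      refine Pa.one hqW (hW _ ?_) ?_
      · simp only
        omega
      · unfold Pool.Agent.W801.OS.Adj pt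
        simp only
        constructor <;> omega
    exact Pa.trans s1 (right' hW (by omega) (by omega))
  · have s1 : Pa W (pt (a, b)) (pt (a, -R - 1)) := by
      refine Pa.one hqW (hW _ ?_) ?_
      · simp only
        omega
      · unfold Pool.Agent.W801.OS.Adj pt
        simp only
        constructor <;> omega
    exact Pa.trans (Pa.trans s1 (right' hW (by omega) (by omega)))
      (up' hW (by omega) (by omega))

/-! ## the tips -/

theorem tp_up {k i : ℕ} (h : 2 * i ≤ k) : tp k i = ((2 * i : ℤ), 0) := by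
  unfold tp scy
  rw [if_pos (by omega)]
  refine Prod.ext ?_ rfl
  simp only
  push_cast
  ring

theorem tp_lo {k i : ℕ} (h : k < 2 * i) : tp k i = ((2 * k + 1 - 2 * i : ℤ), -1) := by
  unfold tp scy
  rw [if_neg (by omega)]
  refine Prod.ext ?_ rfl
  simp only
  push_cast
  ring

theorem pt_tv (k i : ℕ) : pt (tv k i) = tp k i := by
  rcases Nat.lt_or_ge k (2 * i) with h | h
  · unfold tv pt
    rw [tp_lo h]
    refine Prod.ext ?_ ?_ <;> simp only <;> omega
  · unfold tv pt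
    rw [tp_up h]
    refine Prod.ext ?_ ?_ <;> simp only <;> omega

theorem nm_tv {k i : ℕ} {R : ℤ} (hi : i < k) (hR : (k : ℤ) + 1 ≤ R) : nm (tv k i) ≤ R := by
  unfold nm
  rcases Nat.lt_or_ge k (2 * i) with h | h
  · unfold tv
    rw [tp_lo h]
    simp only
    refine max_le (abs_le.2 ?_) (abs_le.2 ?_) <;> constructor <;> omega
  · unfold tv
    rw [tp_up h]
    simp only
    refine max_le (abs_le.2 ?_) (abs_le.2 ?_) <;> constructor <;> omega

theorem mem_Wk {k : ℕ} {R : ℤ} {F : Set Edg} {v : Vtx} :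
    pt v ∈ Wk k R F ↔ ∃ i < k, Reach (F ∩ bxz R) (tv k i) v := by
  constructor
  · rintro ⟨i, hi, w, h1, h2⟩
    have : v = w := pt_inj h2
    rw [this]
    exact ⟨i, hi, h1⟩
  · rintro ⟨i, hi, h⟩
    exact ⟨i, hi, v, h, rfl⟩

theorem nm_le {k i : ℕ} {R : ℤ} {F : Set Edg} (hi : i < k) (hR : (k : ℤ) + 1 ≤ R) {v : Vtx}
    (h : Reach (F ∩ bxz R) (tv k i) v) : nm v ≤ R := by
  induction h with
  | refl => exact nm_tv hi hR
  | tail _ hs _ =>
    obtain ⟨e, he, h | h⟩ := hs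
    · rw [← h.2]
      exact he.2.2
    · rw [← h.1]
      exact he.2.1

theorem outs {k : ℕ} {R : ℤ} {F : Set Edg} (hR : (k : ℤ) + 1 ≤ R) : Outs R (Wk k R F) := by
  intro v h hv
  obtain ⟨i, hi, h1⟩ := mem_Wk.1 hv
  have := nm_lt (nm_le hi hR h1)
  omega

/-- a lattice path avoiding the clusters -/
theorem path {k : ℕ} {R : ℤ} {F : Set Edg} {p q : Vtx}
    (hp : ∀ i : ℕ, i < k → ¬ Reach (F ∩ bxz R) (tv k i) p)
    (h : Reach {e | e ∈ bxz R ∧ ∀ i : ℕ, i < k → ¬ Reach (F ∩ bxz R) (tv k i) (src e) ∧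
      ¬ Reach (F ∩ bxz R) (tv k i) (tgt e)} p q) :
    Pa (Wk k R F) (pt p) (pt q) ∧ pt q ∉ Wk k R F := by
  induction h with
  | refl =>
    have : pt p ∉ Wk k R F := fun h => by
      obtain ⟨i, hi, h1⟩ := mem_Wk.1 h
      exact hp i hi h1
    exact ⟨Pa.nil _ this, this⟩
  | tail _ hs ih =>
    rename_i v w _
    have h1 : pt w ∉ Wk k R F := by
      intro h
      obtain ⟨i, hi, h⟩ := mem_Wk.1 h
      obtain ⟨e, he, h2 | h2⟩ := hs
      · rw [← h2.2] at h
        exact (he.2 i hi).2 h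
      · rw [← h2.1] at h
        exact (he.2 i hi).1 h
    exact ⟨Pa.cons _ _ _ ih.1 h1 (adj_of hs), h1⟩

theorem tp_mem (k i : ℕ) (R : ℤ) (F : Set Edg) : tp k i ∈ Wi k i R F :=
  ⟨tv k i, Reach.refl _ _, (pt_tv k i).symm⟩

theorem tp_step {k i : ℕ} (hk : 2 ≤ k) (hi : i + 1 < k) : OkF (tp k i) (tp k (i + 1)) := by
  rcases Nat.lt_or_ge k (2 * i) with h | h
  · right
    rw [tp_lo h, tp_lo (by omega)]
    refine ⟨rfl, ?_⟩
    simp only
    push_cast
    omega
  · rcases Nat.lt_or_ge k (2 * (i + 1)) with h' | h'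
    · left
      rw [tp_up h, tp_lo h']
      refine ⟨⟨?_, ?_⟩, ?_, ?_⟩
      · simp only
        push_cast
        omega
      · simp only
        omega
      · rintro ⟨h1, _⟩
        rw [Prod.mk.injEq] at h1
        omega
      · rintro ⟨h1, _⟩
        rw [Prod.mk.injEq] at h1
        omega
    · right
      rw [tp_up h, tp_up h']
      refine ⟨rfl, ?_⟩
      simp only
      push_cast
      omega

theorem tp_chain {k : ℕ} {R : ℤ} {F : Set Edg} (hk : 2 ≤ k) (i : ℕ) (hi : i < k) :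
    ∃ φ, Ch (Wk k R F) (0, 0) (tp k i) φ := by
  induction i with
  | zero =>
    have h0 : tp k 0 = (0, 0) := by
      rw [tp_up (by omega)]
      simp
    rw [h0]
    refine ⟨_, Ch.nil (0, 0) ⟨0, hi, ?_⟩⟩
    have := tp_mem k 0 R F
    rw [h0] at this
    exact this
  | succ i ih =>
    obtain ⟨φ, hφ⟩ := ih (by omega)
    exact ⟨_, Ch.cons _ _ _ φ hφ ⟨i + 1, hi, tp_mem k (i + 1) R F⟩ (tp_step hk hi)⟩

theorem chain {k : ℕ} {R : ℤ} {F : Set Edg} (hk : 2 ≤ k) (hF : (((0 : ℤ), (0 : ℤ), false) : Edg) ∉ F ∧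
    (((-1 : ℤ), (0 : ℤ), true) : Edg) ∉ F) {i : ℕ} (hi : i < k) {v : Vtx}
    (h : Reach (F ∩ bxz R) (tv k i) v) : ∃ φ, Ch (Wk k R F) (0, 0) (pt v) φ := by
  induction h with
  | refl =>
    rw [pt_tv]
    exact tp_chain hk i hi
  | tail hr hs ih =>
    obtain ⟨φ, hφ⟩ := ih
    exact ⟨_, Ch.cons _ _ _ φ hφ (mem_Wk.2 ⟨i, hi, hr.tail hs⟩) (Or.inl (ok hF hs))⟩

theorem bound {k : ℕ} {R : ℤ} {F : Set Edg} (hR : (k : ℤ) + 1 ≤ R) :
    ∀ u ∈ Wk k R F, |u.1| + |u.2| ≤ 2 * R := by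
  rintro u ⟨i, hi, v, hv, rfl⟩
  have h := nm_lt (nm_le hi hR hv)
  simp only
  rcases abs_cases (v.1 + v.2) with h1 | h1 <;> rcases abs_cases (v.1 - v.2) with h2 | h2 <;> omega

end TCOR

open TCOR in
open Pool.Agent.W801.OS.TCOR (pt) in
theorem t_COR : S_COR := by
  rintro k R F hk hR ⟨hF, _, _, q, hq, hpn, hpq⟩
  have hF' : (((0 : ℤ), (0 : ℤ), false) : Edg) ∉ F ∧ (((-1 : ℤ), (0 : ℤ), true) : Edg) ∉ F := by
    constructor
    · have h := hF 0 (by omega) (by omega)
      simpa [edz] using h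
    · have h := hF (-1) (by omega) (by omega)
      simpa [edz] using h
  have h01 : pt (0, 1) = (1, -1) := by simp [pt]
  refine ⟨?_, ?_, ⟨?_, ?_⟩, bound hR, fun i _ => tp_mem k i R F, ?_⟩
  · rintro u ⟨i, _, v, _, rfl⟩
    simp only
    omega
  · obtain ⟨h1, h2⟩ := path hpn hpq
    refine ⟨pt (R + 1, R + 1), ?_, ?_⟩
    · have h3 := TCOR.Pa.trans h1 (TCOR.ring (outs hR) (by omega) hq h2)
      rw [h01] at h3
      exact h3
    · intro u hu
      have h3 := bound hR u hu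
      have h4 := le_abs_self u.1
      have h5 := abs_nonneg u.2
      unfold pt
      simp only
      omega
  · have h := tp_mem k 0 R F
    have h0 : tp k 0 = (0, 0) := by
      rw [tp_up (by omega)]
      simp
    rw [h0] at h
    exact ⟨0, by omega, h⟩
  · rintro u ⟨i, hi, v, hv, rfl⟩
    exact chain hk hF' hi hv
  · intro h
    rw [← h01] at h
    obtain ⟨i, hi, h1⟩ := mem_Wk.1 h
    exact hpn i hi h1

end Pool.Agent.W658.KG
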