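import Pool.Agent.W658.KG.Stm

/-!
# `k` clusters are enough: the sectors of the box are pairwise not connected

Crossing numbers (with signs) of a walk of links between two sectors with the half-lines to the right
of the points of the other clusters.
-/

set_option autoImplicit false

namespace Pool.Agent.W658.KG
open H974 H906.Cyl
open Pool.Agent.H160R2.ML (nm)
open Pool.Agent.W801.OU (RZ LZ Dg nrm zp Cor bxz)
open Pool.Agent.W808.KY (scy RB SEy uY H0 E0)

namespace TD2

/-! ## coordinates -/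

theorem edz_s (s d : ℤ) : (edz s d).1 + (edz s d).2.1 = s := by
  unfold edz
  split_ifs with h
  · simp only; omega
  · simp only; omega

theorem edz_d (s d : ℤ) : dco (edz s d) = d := by
  unfold edz dco
  split_ifs with h h1 h1
  · simp only; omega
  · simp at h1
  · simp at h1
  · simp only; omega

theorem edz_e (e : Edg) : edz (e.1 + e.2.1) (dco e) = e := by
  obtain ⟨x, y, b⟩ := e
  unfold edz dco
  cases b
  · simp only [Bool.false_eq_true, if_false]
    rw [if_neg (by omega)]
    simp only [Prod.mk.injEq, and_true]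
    omega
  · simp only [if_true]
    rw [if_pos (by omega)]
    simp only [Prod.mk.injEq, and_true]
    omega

/-- the box in diagonal coordinates -/
def Bx (R s d : ℤ) : Prop :=
  ((s + d) % 2 = 0 ∧ -2 * R ≤ s + d ∧ s + d ≤ 2 * R - 2 ∧ -2 * R ≤ s - d ∧ s - d ≤ 2 * R) ∨
  ((s + d) % 2 = 1 ∧ -2 * R ≤ s + d + 1 ∧ s + d + 1 ≤ 2 * R ∧ -2 * R ≤ s - d - 1 ∧
    s - d + 1 ≤ 2 * R)

theorem mem_bx (R s d : ℤ) : edz s d ∈ bxz R ↔ Bx R s d := by
  unfold edz bxz nm Bx
  split_ifs with h
  · simp only [Set.mem_ofPred_eq, src_mk, tgt_true, max_le_iff, abs_le]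
    omega
  · simp only [Set.mem_ofPred_eq, src_mk, tgt_false, max_le_iff, abs_le]
    omega

theorem bx_side {R s d : ℤ} (h : ¬ Bx R s d) :
    (∀ s' : ℤ, Bx R s' d → s' < s) ∨ (∀ s' : ℤ, Bx R s' d → s < s') := by
  by_cases h1 : ∃ s1 : ℤ, Bx R s1 d ∧ s < s1
  · right
    intro s' hs'
    obtain ⟨s1, h2, h3⟩ := h1
    by_contra hc
    apply h
    have h4 : s' ≤ s := by omega
    have h5 : s' ≠ s := fun h5 => h (h5 ▸ hs')
    unfold Bx at *
    omega
  · left
    intro s' hs'
    by_contra hc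
    have h5 : s' ≠ s := fun h5 => h (h5 ▸ hs')
    exact h1 ⟨s', hs', by omega⟩

/-- columns (normal form) -/
def col (d j : ℤ) : ℤ := if d < 0 ∧ j = 0 then -1 else j

theorem nrm_col (d j t : ℤ) : nrm {0} d j t = (col d j, t) := by
  unfold nrm col
  simp only [Set.mem_singleton_iff]
  split_ifs with h
  · rw [h.2]; rfl
  · rfl

theorem col_sp (d j : ℤ) : ((d < 0 ∧ j = 0) ∧ col d j = -1) ∨ (¬ (d < 0 ∧ j = 0) ∧ col d j = j) := by
  unfold col
  split_ifs with h
  · exact Or.inl ⟨h, rfl⟩
  · exact Or.inr ⟨h, rfl⟩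

theorem col_mono {d j j' : ℤ} (h : j ≤ j') : col d j ≤ col d j' := by
  have h1 := col_sp d j
  have h2 := col_sp d j'
  omega

/-! ## links -/

/-- the link of the square `(s, d)` is the one of type `i` (`0`: rising, `1`: falling) -/
def St (G : Set Edg) (s d i : ℤ) : Prop := edz s d ∈ G ∪ E0 ↔ ((s + d) % 2 = 0 ↔ i = 0)

theorem St_unique {G : Set Edg} {s d i i' : ℤ} (hi : i = 0 ∨ i = 1) (hi' : i' = 0 ∨ i' = 1)
    (h : St G s d i) (h' : St G s d i') : i = i' := by
  unfold St at h h'
  by_cases h1 : edz s d ∈ G ∪ E0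
  · have a := h.1 h1
    have b := h'.1 h1
    omega
  · have a : ¬ ((s + d) % 2 = 0 ↔ i = 0) := fun q => h1 (h.2 q)
    have b : ¬ ((s + d) % 2 = 0 ↔ i' = 0) := fun q => h1 (h'.2 q)
    omega

/-- a link: lower end, upper end -/
structure Lq (k R : ℕ) (G : Set Edg) (s d i : ℤ) (l u : ℤ × ℤ) : Prop where
  bx : Bx R s d
  nz : ¬ (d < 0 ∧ s = -1)
  nh : ¬ (d = -1 ∧ 1 ≤ s ∧ s < k)
  hi : i = 0 ∨ i = 1
  fo : d = -1 → s = 0 → i = 1
  st : St G s d i
  l1 : l.1 = col d (s + i)
  l2 : l.2 = d
  u1 : u.1 = col d (s + 1 - i)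
  u2 : u.2 = d + 1

/-- links, in both directions -/
def Ls (k R : ℕ) (G : Set Edg) (x y : ℤ × ℤ) : Prop :=
  ∃ s d i : ℤ, Lq k R G s d i x y ∨ Lq k R G s d i y x

theorem Ls_symm {k R : ℕ} {G : Set Edg} {x y : ℤ × ℤ} (h : Ls k R G x y) : Ls k R G y x := by
  obtain ⟨s, d, i, h⟩ := h
  exact ⟨s, d, i, h.symm⟩

theorem lz_ls {k R : ℕ} {G : Set Edg} {x y : ℤ × ℤ}
    (h : LZ {0} (bxz (R : ℤ) ∩ H0 k) (G ∪ E0) x y) : Ls k R G x y := by
  obtain ⟨e, ⟨hb, hH⟩, hz, h⟩ := h
  obtain ⟨s, d, rfl⟩ : ∃ s d, e = edz s d := ⟨_, _, (edz_e e).symm⟩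
  have hb' := (mem_bx R s d).1 hb
  have hz' : ¬ (d < 0 ∧ s = -1) := by
    rintro ⟨h1, h2⟩
    apply hz
    unfold zp
    simp only [Set.mem_ofPred_eq, edz_s, edz_d, Set.mem_singleton_iff]
    exact ⟨h1, by omega⟩
  have hH' : ¬ (d = -1 ∧ 1 ≤ s ∧ s < k) := by
    unfold H0 at hH
    simp only [Set.mem_ofPred_eq, edz_s, edz_d] at hH
    exact hH
  have hE : d = -1 → s = 0 → edz s d ∈ G ∪ E0 := by
    intro h1 h2
    right
    unfold E0
    simp only [Set.mem_ofPred_eq, edz_s, edz_d]
    exact ⟨h1, h2⟩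
  have main : ∀ i : ℤ, (i = 0 ∨ i = 1) → St G s d i → (d = -1 → s = 0 → i = 1) := by
    intro i hi hst h1 h2
    have h3 := hst.1 (hE h1 h2)
    subst h1
    subst h2
    rcases hi with rfl | rfl
    · have := h3.2 rfl
      norm_num at this
    · rfl
  have rise : St G s d 0 → x = nrm {0} d s d → y = nrm {0} d (s + 1) (d + 1) →
      Ls k R G x y := by
    intro hst hx hy
    rw [nrm_col] at hx hy
    exact ⟨s, d, 0, Or.inl ⟨hb', hz', hH', Or.inl rfl, main 0 (Or.inl rfl) hst, hst,
      by rw [hx, add_zero], by rw [hx], by rw [hy, sub_zero], by rw [hy]⟩⟩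
  have fall : St G s d 1 → x = nrm {0} d s (d + 1) → y = nrm {0} d (s + 1) d →
      Ls k R G x y := by
    intro hst hx hy
    rw [nrm_col] at hx hy
    exact ⟨s, d, 1, Or.inr ⟨hb', hz', hH', Or.inr rfl, main 1 (Or.inr rfl) hst, hst,
      by rw [hy], by rw [hy], by rw [hx, add_sub_cancel_right], by rw [hx]⟩⟩
  rcases h with ⟨hG, h⟩ | ⟨hG, h⟩
  · rcases h with h | h
    · rw [edz_s, edz_d] at h
      rw [edz_s, edz_d] at *
      exact rise (by unfold St; exact ⟨fun _ => ⟨fun _ => rfl, fun _ => h⟩, fun _ => hG⟩) rfl rfl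
    · rw [edz_s, edz_d] at h
      rw [edz_s, edz_d] at *
      exact fall (by
        unfold St
        exact ⟨fun _ => ⟨fun h1 => by omega, fun h1 => by omega⟩, fun _ => hG⟩) rfl rfl
  · rcases h with h | h
    · rw [edz_s, edz_d] at h
      rw [edz_s, edz_d] at *
      exact rise (by
        unfold St
        exact ⟨fun h1 => absurd h1 hG, fun h1 => by have := h1.2 rfl; omega⟩) rfl rfl
    · rw [edz_s, edz_d] at h
      rw [edz_s, edz_d] at *
      exact fall (by
        unfold St
        exact ⟨fun h1 => absurd h1 hG, fun h1 => by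
          have h2 : (s + d) % 2 = 0 := by omega
          have := h1.1 h2
          omega⟩) rfl rfl

/-! ## walks with sums of step weights -/

abbrev Wt := ℤ × ℤ → ℤ × ℤ → ℤ

/-- walks of links; the functional gives the sum of a weight along the walk -/
inductive Wk' (k R : ℕ) (G : Set Edg) : ℤ × ℤ → ℤ × ℤ → (Wt → ℤ) → Prop
  | nil (u : ℤ × ℤ) : Wk' k R G u u (fun _ => 0)
  | cons (u v w : ℤ × ℤ) (Φ : Wt → ℤ) : Wk' k R G u v Φ → Ls k R G v w → RB k R G u v →
      RB k R G u w → Wk' k R G u w (fun c => Φ c + c v w)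

theorem rtg_symm {α : Type} {r : α → α → Prop} (hs : ∀ a b, r a b → r b a) {x y : α}
    (h : Relation.ReflTransGen r x y) : Relation.ReflTransGen r y x := by
  induction h with
  | refl => exact Relation.ReflTransGen.refl
  | tail _ h ih => exact Relation.ReflTransGen.head (hs _ _ h) ih

theorem rb_rtg {k R : ℕ} {G : Set Edg} {x y : ℤ × ℤ} (h : RB k R G x y) :
    Relation.ReflTransGen (fun a b => Ls k R G a b ∧ RB k R G a b) x y := by
  have h' : Relation.EqvGen (LZ {0} (bxz (R : ℤ) ∩ H0 k) (G ∪ E0)) x y := h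
  clear h
  induction h' with
  | rel a b h =>
    exact Relation.ReflTransGen.single ⟨lz_ls h, Relation.EqvGen.rel _ _ h⟩
  | refl a => exact Relation.ReflTransGen.refl
  | symm a b _ ih =>
    exact rtg_symm (fun u v h => ⟨Ls_symm h.1, Relation.EqvGen.symm _ _ h.2⟩) ih
  | trans a b c _ _ ih1 ih2 => exact ih1.trans ih2

theorem walk {k R : ℕ} {G : Set Edg} {x y : ℤ × ℤ} (h : RB k R G x y) :
    ∃ Φ, Wk' k R G x y Φ := by
  have h0 := rb_rtg h
  clear h
  have key : RB k R G x y ∧ ∃ Φ, Wk' k R G x y Φ := by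
    induction h0 with
    | refl => exact ⟨Relation.EqvGen.refl _, _, Wk'.nil _⟩
    | tail h1 h2 ih =>
      obtain ⟨h3, Φ, h4⟩ := ih
      have h5 := Relation.EqvGen.trans _ _ _ h3 h2.2
      exact ⟨h5, _, Wk'.cons _ _ _ Φ h4 h2.1 h3 h5⟩
  exact key.2

/-- telescoping -/
theorem tele {k R : ℕ} {G : Set Edg} {a b : ℤ × ℤ} {Φ : Wt → ℤ} (h : Wk' k R G a b Φ)
    (c c' : Wt) (f : ℤ × ℤ → ℤ)
    (hc : ∀ v w : ℤ × ℤ, Ls k R G v w → RB k R G a v → RB k R G a w →
      c v w - c' v w = f w - f v) : Φ c - Φ c' = f b - f a := by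
  induction h with
  | nil => simp
  | cons v w Φ h h1 h2 h3 ih =>
    have h5 := hc v w h1 h2 h3
    show (Φ c + c v w) - (Φ c' + c' v w) = f w - f a
    linarith

theorem tele0 {k R : ℕ} {G : Set Edg} {a b : ℤ × ℤ} {Φ : Wt → ℤ} (h : Wk' k R G a b Φ)
    (c c' : Wt)
    (hc : ∀ v w : ℤ × ℤ, Ls k R G v w → RB k R G a v → RB k R G a w →
      c v w = c' v w) : Φ c = Φ c' := by
  have := tele h c c' (fun _ => 0) (fun v w h1 h2 h3 => by rw [hc v w h1 h2 h3]; ring)
  linarith

theorem tele1 {k R : ℕ} {G : Set Edg} {a b : ℤ × ℤ} {Φ : Wt → ℤ} (h : Wk' k R G a b Φ)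
    (c : Wt) (f : ℤ × ℤ → ℤ)
    (hc : ∀ v w : ℤ × ℤ, Ls k R G v w → RB k R G a v → RB k R G a w →
      c v w = f w - f v) : Φ c = f b - f a := by
  have h1 := tele h c (fun _ _ => 0) f (fun v w h1 h2 h3 => by
    have := hc v w h1 h2 h3
    show c v w - 0 = _
    rw [this, sub_zero])
  have h2 : Φ (fun _ _ => 0) = 0 := by
    clear h1 hc
    induction h with
    | nil => rfl
    | cons v w Φ h h1 h2 h3 ih =>
      show Φ (fun _ _ => 0) + 0 = 0
      rw [ih, add_zero]
  linarith

theorem tele2 {k R : ℕ} {G : Set Edg} {a b : ℤ × ℤ} {Φ : Wt → ℤ} (h : Wk' k R G a b Φ)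
    (c : Wt) (f : ℤ × ℤ → ℤ)
    (hc : ∀ v w : ℤ × ℤ, Ls k R G v w → (c v w - (f w - f v)) % 2 = 0) :
    (Φ c - (f b - f a)) % 2 = 0 := by
  induction h with
  | nil => simp
  | cons v w Φ h h1 h2 h3 ih =>
    have h5 := hc v w h1
    show (Φ c + c v w - (f w - f a)) % 2 = 0
    omega

/-! ## weights -/

/-- indicator of the half-line to the right of `p` -/
def g (p u : ℤ × ℤ) : ℤ := if u.2 = p.2 ∧ p.1 < u.1 then 1 else 0

/-- crossings of the half-line right of `p`, just below -/
def cb (p : ℤ × ℤ) : Wt := fun u v =>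
  if u.2 = p.2 ∧ v.2 = p.2 - 1 ∧ p.1 < u.1 then 1
  else if v.2 = p.2 ∧ u.2 = p.2 - 1 ∧ p.1 < v.1 then -1 else 0

/-- crossings of the half-line right of `p`, just above -/
def ca (p : ℤ × ℤ) : Wt := fun u v =>
  if u.2 = p.2 + 1 ∧ v.2 = p.2 ∧ p.1 < v.1 then 1
  else if v.2 = p.2 + 1 ∧ u.2 = p.2 ∧ p.1 < u.1 then -1 else 0

/-- crossings from the row `d + 1` to the row `d` -/
def fx (d : ℤ) : Wt := fun u v =>
  if u.2 = d + 1 ∧ v.2 = d then 1 else if v.2 = d + 1 ∧ u.2 = d then -1 else 0

/-- crossings from the row `0` to the row `-1` on the right of the tip -/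
def fr (k : ℕ) : Wt := fun u v =>
  if u.2 = 0 ∧ v.2 = -1 ∧ (k : ℤ) ≤ u.1 then 1
  else if v.2 = 0 ∧ u.2 = -1 ∧ (k : ℤ) ≤ v.1 then -1 else 0

theorem ls_rows {k R : ℕ} {G : Set Edg} {x y : ℤ × ℤ} (h : Ls k R G x y) :
    x.2 = y.2 + 1 ∨ y.2 = x.2 + 1 := by
  obtain ⟨s, d, i, h | h⟩ := h
  · right; rw [h.u2, h.l2]
  · left; rw [h.u2, h.l2]

/-- conservation -/
theorem cons_ca {k R : ℕ} {G : Set Edg} {a b : ℤ × ℤ} {Φ : Wt → ℤ} (h : Wk' k R G a b Φ)
    (p : ℤ × ℤ) : Φ (ca p) - Φ (cb p) = g p b - g p a := by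
  refine tele h _ _ (g p) fun v w h1 _ _ => ?_
  have h2 := ls_rows h1
  unfold ca cb g
  rcases h2 with h2 | h2
  · split_ifs <;> omega
  · split_ifs <;> omega

/-- conservation for rows -/
theorem cons_fx {k R : ℕ} {G : Set Edg} {a b : ℤ × ℤ} {Φ : Wt → ℤ} (h : Wk' k R G a b Φ)
    (d : ℤ) : Φ (fx d) = (if d + 1 ≤ a.2 then 1 else 0) - (if d + 1 ≤ b.2 then 1 else 0) := by
  have := tele1 h (fx d) (fun u => - (if d + 1 ≤ u.2 then 1 else 0)) fun v w h1 _ _ => ?_
  · rw [this]; ring
  · have h2 := ls_rows h1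
    unfold fx
    rcases h2 with h2 | h2
    · split_ifs <;> omega
    · split_ifs <;> omega

/-! ## sectors -/

/-- coordinates of a sector -/
def Sec (k : ℕ) (a : ℤ × ℤ) : Prop :=
  (a.2 = 0 ∧ -1 ≤ a.1 ∧ a.1 ≤ k) ∨ (a.2 = -1 ∧ 2 ≤ a.1 ∧ a.1 ≤ k)

theorem scy_sp {k c : ℕ} (_ : c < 2 * k + 1) :
    (c ≤ k + 1 ∧ (scy 0 k 0 c).1 = (c : ℤ) - 1 ∧ (scy 0 k 0 c).2 = 0) ∨
    (k + 2 ≤ c ∧ (scy 0 k 0 c).1 = 2 * (k : ℤ) + 2 - c ∧ (scy 0 k 0 c).2 = -1) := by
  unfold scy
  split_ifs with h
  · left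
    refine ⟨h, ?_, rfl⟩
    simp
  · right
    refine ⟨by omega, ?_, rfl⟩
    simp

theorem scy_sec {k c : ℕ} (hc : c < 2 * k + 1) : Sec k (scy 0 k 0 c) := by
  rcases scy_sp hc with ⟨h1, h2, h3⟩ | ⟨h1, h2, h3⟩
  · left; omega
  · right; omega

/-! ## invariance -/

/-- order of two different links of the same row of squares -/
theorem ord {k R : ℕ} {G : Set Edg} {s s2 d i i2 : ℤ} {p p' l u : ℤ × ℤ}
    (h : Lq k R G s d i p p') (h2 : Lq k R G s2 d i2 l u) (hp : p ≠ l) (hp' : p' ≠ u) :
    (p.1 < l.1 ↔ p'.1 < u.1) := by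
  have e1 : p.1 ≠ l.1 := fun q => hp (Prod.ext q (by rw [h.l2, h2.l2]))
  have e2 : p'.1 ≠ u.1 := fun q => hp' (Prod.ext q (by rw [h.u2, h2.u2]))
  have a1 := h.hi
  have a2 := h2.hi
  rcases lt_trichotomy s s2 with hs | hs | hs
  · have b1 : col d (s + i) ≤ col d (s2 + i2) := col_mono (by omega)
    have b2 : col d (s + 1 - i) ≤ col d (s2 + 1 - i2) := col_mono (by omega)
    rw [← h.l1, ← h2.l1] at b1
    rw [← h.u1, ← h2.u1] at b2
    omega
  · subst hs
    have := St_unique a1 a2 h.st h2.st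
    subst this
    exact absurd (by rw [h.l1, h2.l1]) e1
  · have b1 : col d (s2 + i2) ≤ col d (s + i) := col_mono (by omega)
    have b2 : col d (s2 + 1 - i2) ≤ col d (s + 1 - i) := col_mono (by omega)
    rw [← h.l1, ← h2.l1] at b1
    rw [← h.u1, ← h2.u1] at b2
    omega

/-- crossings along a link of another cluster -/
theorem cb_ca {k R : ℕ} {G : Set Edg} {a b : ℤ × ℤ} {Φ : Wt → ℤ} (h : Wk' k R G a b Φ)
    {s d i : ℤ} {p p' : ℤ × ℤ} (hl : Lq k R G s d i p p') (hp : ¬ RB k R G a p)
    (hp' : ¬ RB k R G a p') : Φ (cb p') = Φ (ca p) := by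
  refine tele0 h _ _ fun v w h1 h2 h3 => ?_
  have q1 : ∀ {x}, RB k R G a x → p ≠ x := fun hx q => hp (q ▸ hx)
  have q2 : ∀ {x}, RB k R G a x → p' ≠ x := fun hx q => hp' (q ▸ hx)
  have l2 := hl.l2
  have u2 := hl.u2
  obtain ⟨s2, d2, i2, h4 | h4⟩ := h1
  · have l2' := h4.l2
    have u2' := h4.u2
    by_cases hd : d2 = d
    · subst hd
      have := ord hl h4 (q1 h2) (q2 h3)
      unfold cb ca
      split_ifs <;> omega
    · unfold cb ca
      split_ifs <;> omega
  · have l2' := h4.l2
    have u2' := h4.u2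
    by_cases hd : d2 = d
    · subst hd
      have := ord hl h4 (q1 h3) (q2 h2)
      unfold cb ca
      split_ifs <;> omega
    · unfold cb ca
      split_ifs <;> omega

theorem geo {k R : ℕ} {G : Set Edg} {s i : ℤ} {p p' a : ℤ × ℤ} (hk : 2 ≤ k)
    (h : Lq k R G s (-1) i p p') (ha : Sec k a) (hn' : p' ≠ a) :
    g p a + g p' a = if s ≤ 0 then 1 else 0 := by
  have hi := h.hi
  have nz := h.nz
  have nh := h.nh
  have fo := h.fo rfl
  have l1 := h.l1
  have l2 := h.l2
  have u1 := h.u1
  have u2 := h.u2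
  have c1 := col_sp (-1) (s + i)
  have c2 := col_sp (-1) (s + 1 - i)
  have e2 : p'.2 = a.2 → p'.1 ≠ a.1 := fun q q' => hn' (Prod.ext q' q)
  unfold Sec at ha
  unfold g
  split_ifs <;> omega

/-- the corrected crossing number -/
def FF (Φ : Wt → ℤ) (a b p : ℤ × ℤ) : ℤ :=
  Φ (cb p) - (if p.2 = 0 then g p a - g p b else 0)

theorem inv_lq {k R : ℕ} {G : Set Edg} {a b : ℤ × ℤ} {Φ : Wt → ℤ} (hk : 2 ≤ k)
    (h : Wk' k R G a b Φ) (hab : RB k R G a b) (ha : Sec k a) (hb : Sec k b)
    {s d i : ℤ} {p p' : ℤ × ℤ} (hl : Lq k R G s d i p p') (hp : ¬ RB k R G a p)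
    (hp' : ¬ RB k R G a p') : FF Φ a b p = FF Φ a b p' := by
  have h1 := cb_ca h hl hp hp'
  have h2 := cons_ca h p
  have na' : p' ≠ a := fun q => hp' (q ▸ Relation.EqvGen.refl _)
  have nb' : p' ≠ b := fun q => hp' (q ▸ hab)
  have l2 := hl.l2
  have u2 := hl.u2
  unfold FF
  by_cases hd : d = -1
  · subst hd
    have g1 := geo hk hl ha na'
    have g2 := geo hk hl hb nb'
    rw [if_neg (by omega), if_pos (by omega)]
    omega
  · rw [if_neg (by omega : ¬ p'.2 = 0)]
    by_cases hd0 : d = 0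
    · rw [if_pos (by omega)]
      omega
    · rw [if_neg (by omega)]
      have g1 : g p a = 0 := by
        unfold g
        unfold Sec at ha
        rw [if_neg (by omega)]
      have g2 : g p b = 0 := by
        unfold g
        unfold Sec at hb
        rw [if_neg (by omega)]
      omega

theorem inv_rb {k R : ℕ} {G : Set Edg} {a b : ℤ × ℤ} {Φ : Wt → ℤ} (hk : 2 ≤ k)
    (h : Wk' k R G a b Φ) (hab : RB k R G a b) (ha : Sec k a) (hb : Sec k b)
    {x y : ℤ × ℤ} (hxy : RB k R G x y) (hx : ¬ RB k R G a x) : FF Φ a b x = FF Φ a b y := by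
  have h0 := rb_rtg hxy
  clear hxy
  have key : ¬ RB k R G a y ∧ FF Φ a b x = FF Φ a b y := by
    induction h0 with
    | refl => exact ⟨hx, rfl⟩
    | @tail u v h1 h2 ih =>
      obtain ⟨h3, h4⟩ := ih
      have h5 : ¬ RB k R G a v := fun q =>
        h3 (Relation.EqvGen.trans _ _ _ q (Relation.EqvGen.symm _ _ h2.2))
      refine ⟨h5, h4.trans ?_⟩
      obtain ⟨s, d, i, h6 | h6⟩ := h2.1
      · exact inv_lq hk h hab ha hb h6 h3 h5
      · exact (inv_lq hk h hab ha hb h6 h5 h3).symm
  exact key.2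

/-! ## exits -/

theorem exit_sp {R : ℕ} {x : ℤ × ℤ} {e : Edg} (he : e ∉ bxz (R : ℤ))
    (h : Cor {0} 0 e x ∨ Cor {0} 1 e x) : ∃ s d i κ : ℤ, ¬ Bx R s d ∧ ¬ (d < 0 ∧ s = -1) ∧
      (i = 0 ∨ i = 1) ∧ (κ = 0 ∨ κ = 1) ∧ x.1 = col d (s + i) ∧ x.2 = d + κ := by
  obtain ⟨s, d, rfl⟩ : ∃ s d, e = edz s d := ⟨_, _, (edz_e e).symm⟩
  have hb : ¬ Bx R s d := fun q => he ((mem_bx R s d).2 q)
  have main : ∀ c : ℤ, Cor {0} c (edz s d) x → ∃ s d i κ : ℤ, ¬ Bx R s d ∧ ¬ (d < 0 ∧ s = -1) ∧
      (i = 0 ∨ i = 1) ∧ (κ = 0 ∨ κ = 1) ∧ x.1 = col d (s + i) ∧ x.2 = d + κ := by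
    rintro c ⟨hz, y, hy⟩
    have hz' : ¬ (d < 0 ∧ s = -1) := by
      rintro ⟨h1, h2⟩
      apply hz
      unfold zp
      simp only [Set.mem_ofPred_eq, edz_s, edz_d, Set.mem_singleton_iff]
      exact ⟨h1, by omega⟩
    have key : ∀ i κ : ℤ, (i = 0 ∨ i = 1) → (κ = 0 ∨ κ = 1) → x = nrm {0} d (s + i) (d + κ) →
        ∃ s d i κ : ℤ, ¬ Bx R s d ∧ ¬ (d < 0 ∧ s = -1) ∧
      (i = 0 ∨ i = 1) ∧ (κ = 0 ∨ κ = 1) ∧ x.1 = col d (s + i) ∧ x.2 = d + κ := by
      intro i κ hi hκ hx
      rw [nrm_col] at hx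
      exact ⟨s, d, i, κ, hb, hz', hi, hκ, by rw [hx], by rw [hx]⟩
    rcases hy with hy | hy
    · rcases hy with hy | hy
      · refine key 0 0 (Or.inl rfl) (Or.inl rfl) ?_
        rw [edz_s, edz_d, add_zero, add_zero]
      · refine key 0 1 (Or.inl rfl) (Or.inr rfl) ?_
        rw [edz_s, edz_d, add_zero]
    · rcases hy with hy | hy
      · refine key 1 1 (Or.inr rfl) (Or.inr rfl) ?_
        rw [edz_s, edz_d]
      · refine key 1 0 (Or.inr rfl) (Or.inl rfl) ?_
        rw [edz_s, edz_d, add_zero]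
  rcases h with h | h
  · exact main 0 h
  · exact main 1 h

theorem exit_FF {k R : ℕ} {G : Set Edg} {a b : ℤ × ℤ} {Φ : Wt → ℤ} (hk : 2 ≤ k)
    (hR : 2 * k + 2 ≤ R) (h : Wk' k R G a b Φ) (ha : Sec k a) (hb : Sec k b)
    {x : ℤ × ℤ} (hx : ¬ RB k R G a x) {e : Edg} (he : e ∉ bxz (R : ℤ))
    (hc : Cor {0} 0 e x ∨ Cor {0} 1 e x) : FF Φ a b x = 0 := by
  obtain ⟨s, d, i, κ, h1, h2, hi, hκ, x1, x2⟩ := exit_sp he hc
  have q1 : ∀ {y : ℤ × ℤ}, RB k R G a y → y.2 = x.2 → y.1 ≠ x.1 := by
    intro y hy q q'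
    have : y = x := Prod.ext q' q
    exact hx (this ▸ hy)
  have hca := cons_ca h x
  have hfx := cons_fx h d
  have bxm : d = -1 ∨ d = 0 → Bx R k d ∧ Bx R (-2) d := by
    rintro (rfl | rfl) <;> unfold Bx <;> omega
  rcases bx_side h1 with h3 | h3
  · -- all the squares of the row are on the left
    have hfar : d = -1 ∨ d = 0 → (k : ℤ) < x.1 := by
      intro hd
      have h4 := h3 k (bxm hd).1
      have h5 := col_sp d (s + i)
      omega
    have hg : x.2 = 0 ∨ x.2 = -1 → d = -1 ∨ d = 0 → g x a = 0 ∧ g x b = 0 := by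
      intro _ hd
      have h4 := hfar hd
      unfold g
      unfold Sec at ha hb
      constructor
      · rw [if_neg (by omega)]
      · rw [if_neg (by omega)]
    rcases hκ with rfl | rfl
    · -- lower corner
      have h4 : Φ (ca x) = 0 := by
        have := tele1 h (ca x) (fun _ => 0) fun v w k1 k2 k3 => ?_
        · rw [this]; ring
        · obtain ⟨s2, d2, i2, k4 | k4⟩ := k1
          · have l1 := k4.l1
            have l2 := k4.l2
            have u2 := k4.u2
            have hi2 := k4.hi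
            by_cases hd : d2 = d
            · subst hd
              have := h3 s2 k4.bx
              have := col_mono (d := d2) (show s2 + i2 ≤ s + i by omega)
              unfold ca
              split_ifs <;> omega
            · unfold ca
              split_ifs <;> omega
          · have l1 := k4.l1
            have l2 := k4.l2
            have u2 := k4.u2
            have hi2 := k4.hi
            by_cases hd : d2 = d
            · subst hd
              have := h3 s2 k4.bx
              have := col_mono (d := d2) (show s2 + i2 ≤ s + i by omega)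
              unfold ca
              split_ifs <;> omega
            · unfold ca
              split_ifs <;> omega
      unfold FF
      by_cases hx0 : x.2 = 0
      · rw [if_pos hx0]
        omega
      · rw [if_neg hx0]
        by_cases hx1 : x.2 = -1
        · have := hg (Or.inr hx1) (by omega)
          omega
        · have g1 : g x a = 0 := by
            unfold g
            unfold Sec at ha
            rw [if_neg (by omega)]
          have g2 : g x b = 0 := by
            unfold g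
            unfold Sec at hb
            rw [if_neg (by omega)]
          omega
    · -- upper corner
      have h4 : Φ (cb x) = 0 := by
        have := tele1 h (cb x) (fun _ => 0) fun v w k1 k2 k3 => ?_
        · rw [this]; ring
        · obtain ⟨s2, d2, i2, k4 | k4⟩ := k1
          · have u1 := k4.u1
            have l2 := k4.l2
            have u2 := k4.u2
            have hi2 := k4.hi
            by_cases hd : d2 = d
            · subst hd
              have := h3 s2 k4.bx
              have := col_mono (d := d2) (show s2 + 1 - i2 ≤ s + i by omega)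
              unfold cb
              split_ifs <;> omega
            · unfold cb
              split_ifs <;> omega
          · have u1 := k4.u1
            have l2 := k4.l2
            have u2 := k4.u2
            have hi2 := k4.hi
            by_cases hd : d2 = d
            · subst hd
              have := h3 s2 k4.bx
              have := col_mono (d := d2) (show s2 + 1 - i2 ≤ s + i by omega)
              unfold cb
              split_ifs <;> omega
            · unfold cb
              split_ifs <;> omega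
      unfold FF
      by_cases hx0 : x.2 = 0
      · have := hg (Or.inl hx0) (by omega)
        rw [if_pos hx0]
        omega
      · rw [if_neg hx0]
        omega
  · -- all the squares of the row are on the right
    have hfar : d = -1 ∨ d = 0 → x.1 < -1 := by
      intro hd
      have h4 := h3 (-2) (bxm hd).2
      have h5 := col_sp d (s + i)
      omega
    rcases hκ with rfl | rfl
    · -- lower corner
      have h4 : Φ (ca x) = Φ (fx d) := by
        refine tele0 h (ca x) (fx d) fun v w k1 k2 k3 => ?_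
        obtain ⟨s2, d2, i2, k4 | k4⟩ := k1
        · have l1 := k4.l1
          have l2 := k4.l2
          have u2 := k4.u2
          have hi2 := k4.hi
          by_cases hd : d2 = d
          · subst hd
            have := h3 s2 k4.bx
            have := col_mono (d := d2) (show s + i ≤ s2 + i2 by omega)
            have := q1 k2
            unfold ca fx
            split_ifs <;> omega
          · unfold ca fx
            split_ifs <;> omega
        · have l1 := k4.l1
          have l2 := k4.l2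
          have u2 := k4.u2
          have hi2 := k4.hi
          by_cases hd : d2 = d
          · subst hd
            have := h3 s2 k4.bx
            have := col_mono (d := d2) (show s + i ≤ s2 + i2 by omega)
            have := q1 k3
            unfold ca fx
            split_ifs <;> omega
          · unfold ca fx
            split_ifs <;> omega
      unfold FF
      unfold g at hca ⊢
      unfold Sec at ha hb
      split_ifs at hca hfx ⊢ <;> omega
    · -- upper corner
      have h4 : Φ (cb x) = Φ (fx d) := by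
        refine tele0 h (cb x) (fx d) fun v w k1 k2 k3 => ?_
        obtain ⟨s2, d2, i2, k4 | k4⟩ := k1
        · have u1 := k4.u1
          have l2 := k4.l2
          have u2 := k4.u2
          have hi2 := k4.hi
          by_cases hd : d2 = d
          · subst hd
            have := h3 s2 k4.bx
            have := col_mono (d := d2) (show s + i ≤ s2 + 1 - i2 by omega)
            have := q1 k3
            unfold cb fx
            split_ifs <;> omega
          · unfold cb fx
            split_ifs <;> omega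
        · have u1 := k4.u1
          have l2 := k4.l2
          have u2 := k4.u2
          have hi2 := k4.hi
          by_cases hd : d2 = d
          · subst hd
            have := h3 s2 k4.bx
            have := col_mono (d := d2) (show s + i ≤ s2 + 1 - i2 by omega)
            have := q1 k2
            unfold cb fx
            split_ifs <;> omega
          · unfold cb fx
            split_ifs <;> omega
      unfold FF
      unfold g
      unfold Sec at ha hb
      split_ifs at hfx ⊢ <;> omega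

/-! ## the flux on the right of the tip -/

/-- value of the flux, seen from a sector of another cluster which reaches the boundary -/
theorem flux {k R : ℕ} {G : Set Edg} {a b : ℤ × ℤ} {Φ : Wt → ℤ} (hk : 2 ≤ k)
    (hR : 2 * k + 2 ≤ R) (h : Wk' k R G a b Φ) (hab : RB k R G a b) (ha : Sec k a) (hb : Sec k b)
    {p : ℤ × ℤ} (hpS : Sec k p) (hp0 : p.2 = 0 → 0 ≤ p.1) (hp : ¬ RB k R G a p)
    (hr : ∃ x : ℤ × ℤ, RB k R G p x ∧ ∃ e ∉ bxz (R : ℤ), Cor {0} 0 e x ∨ Cor {0} 1 e x) :
    Φ (fr k) = if p.2 = 0 then g p a - g p b else g p b - g p a := by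
  obtain ⟨x, hx, e, he, hc⟩ := hr
  have hx' : ¬ RB k R G a x := fun q =>
    hp (Relation.EqvGen.trans _ _ _ q (Relation.EqvGen.symm _ _ hx))
  have h1 := inv_rb hk h hab ha hb hx hp
  rw [exit_FF hk hR h ha hb hx' he hc] at h1
  have q1 : ∀ {y : ℤ × ℤ}, RB k R G a y → y.2 = p.2 → y.1 ≠ p.1 := by
    intro y hy q q'
    have : y = p := Prod.ext q' q
    exact hp (this ▸ hy)
  have h2 := cons_ca h p
  unfold FF at h1
  rcases hpS with ⟨p2, p1, p3⟩ | ⟨p2, p1, p3⟩
  · -- upper sector
    rw [if_pos p2] at h1 ⊢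
    have h3 : Φ (cb p) = Φ (fr k) := by
      refine tele0 h _ _ fun v w k1 k2 k3 => ?_
      have hp0' := hp0 p2
      obtain ⟨s2, d2, i2, k4 | k4⟩ := k1
      · have u1 := k4.u1
        have l2 := k4.l2
        have u2 := k4.u2
        have hi2 := k4.hi
        have nz := k4.nz
        have nh := k4.nh
        have fo := k4.fo
        have c1 := col_sp d2 (s2 + 1 - i2)
        have := q1 k3
        unfold cb fr
        split_ifs <;> omega
      · have u1 := k4.u1
        have l2 := k4.l2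
        have u2 := k4.u2
        have hi2 := k4.hi
        have nz := k4.nz
        have nh := k4.nh
        have fo := k4.fo
        have c1 := col_sp d2 (s2 + 1 - i2)
        have := q1 k2
        unfold cb fr
        split_ifs <;> omega
    omega
  · -- lower sector
    rw [if_neg (by omega)] at h1 ⊢
    have h3 : Φ (ca p) = Φ (fr k) := by
      refine tele0 h _ _ fun v w k1 k2 k3 => ?_
      obtain ⟨s2, d2, i2, k4 | k4⟩ := k1
      · have u1 := k4.u1
        have l1 := k4.l1
        have l2 := k4.l2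
        have u2 := k4.u2
        have hi2 := k4.hi
        have nz := k4.nz
        have nh := k4.nh
        have fo := k4.fo
        have c1 := col_sp d2 (s2 + 1 - i2)
        have c2 := col_sp d2 (s2 + i2)
        have := q1 k2
        unfold ca fr
        split_ifs <;> omega
      · have u1 := k4.u1
        have l1 := k4.l1
        have l2 := k4.l2
        have u2 := k4.u2
        have hi2 := k4.hi
        have nz := k4.nz
        have nh := k4.nh
        have fo := k4.fo
        have c1 := col_sp d2 (s2 + 1 - i2)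
        have c2 := col_sp d2 (s2 + i2)
        have := q1 k3
        unfold ca fr
        split_ifs <;> omega
    omega

/-- parity of the flux -/
theorem flux_parity {k R : ℕ} {G : Set Edg} {a b : ℤ × ℤ} {Φ : Wt → ℤ} (hk : 2 ≤ k)
    (h : Wk' k R G a b Φ) : (Φ (fr k) - ((if b.2 < 0 ∧ 1 ≤ b.1 then 1 else 0) + (b.1 + b.2) % 2 -
      ((if a.2 < 0 ∧ 1 ≤ a.1 then 1 else 0) + (a.1 + a.2) % 2))) % 2 = 0 := by
  refine tele2 h (fr k) (fun u => (if u.2 < 0 ∧ 1 ≤ u.1 then 1 else 0) + (u.1 + u.2) % 2)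
    fun v w k1 => ?_
  obtain ⟨s2, d2, i2, k4 | k4⟩ := k1
  · have u1 := k4.u1
    have l1 := k4.l1
    have l2 := k4.l2
    have u2 := k4.u2
    have hi2 := k4.hi
    have nz := k4.nz
    have nh := k4.nh
    have fo := k4.fo
    have c1 := col_sp d2 (s2 + 1 - i2)
    have c2 := col_sp d2 (s2 + i2)
    unfold fr
    split_ifs <;> omega
  · have u1 := k4.u1
    have l1 := k4.l1
    have l2 := k4.l2
    have u2 := k4.u2
    have hi2 := k4.hi
    have nz := k4.nz
    have nh := k4.nh
    have fo := k4.fo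
    have c1 := col_sp d2 (s2 + 1 - i2)
    have c2 := col_sp d2 (s2 + i2)
    unfold fr
    split_ifs <;> omega

/-- two sectors of even index are not connected -/
theorem main {k R : ℕ} {G : Set Edg} (hk : 2 ≤ k) (hR : 2 * k + 2 ≤ R) (hO : OK k R G)
    {α β : ℕ} (hα : α % 2 = 0) (hβ : β % 2 = 0) (hαβ : α < β) (hβk : β < 2 * k + 1) :
    ¬ RB k R G (scy 0 k 0 α) (scy 0 k 0 β) := by
  intro hab
  obtain ⟨Φ, hΦ⟩ := walk hab
  have ha := scy_sec (show α < 2 * k + 1 by omega)
  have hb := scy_sec hβk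
  have sa := scy_sp (show α < 2 * k + 1 by omega)
  have sb := scy_sp hβk
  -- the value of the flux
  have val : ∀ c : ℕ, c < 2 * k → c % 2 = 1 → Φ (fr k) =
      if (scy 0 k 0 c).2 = 0 then g (scy 0 k 0 c) (scy 0 k 0 α) - g (scy 0 k 0 c) (scy 0 k 0 β)
      else g (scy 0 k 0 c) (scy 0 k 0 β) - g (scy 0 k 0 c) (scy 0 k 0 α) := by
    intro c hc hc2
    obtain ⟨i, rfl⟩ : ∃ i, c = 2 * i + 1 := ⟨c / 2, by omega⟩
    obtain ⟨o1, o2⟩ := hO i (by omega)
    refine flux hk hR hΦ hab ha hb (scy_sec (by omega)) ?_ ?_ o2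
    · intro _
      rcases scy_sp (k := k) (c := 2 * i + 1) (by omega) with ⟨-, h1, -⟩ | ⟨-, h1, h2⟩
      · omega
      · omega
    · intro h
      exact o1 α (by omega) (by omega) (Relation.EqvGen.symm _ _ h)
  have sc : ∀ c : ℕ, c < 2 * k → _ := fun c (hc : c < 2 * k) =>
    scy_sp (k := k) (c := c) (by omega)
  have v1 := val (α + 1) (by omega) (by omega)
  have s1 := sc (α + 1) (by omega)
  unfold g at v1
  by_cases h0 : α = 0
  · by_cases h1 : β = 2 * k
    · -- parity
      have hp := flux_parity hk hΦ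
      split_ifs at v1 hp <;> omega
    · have v2 := val (β + 1) (by omega) (by omega)
      have s2 := sc (β + 1) (by omega)
      unfold g at v2
      split_ifs at v1 v2 <;> omega
  · have v2 := val (α - 1) (by omega) (by omega)
    have s2 := sc (α - 1) (by omega)
    unfold g at v2
    split_ifs at v1 v2 <;> omega

end TD2

open TD2 in
/-- **the sectors are pairwise not connected** -/
theorem t_D2 : S_D2 := by
  intro k R G hk hR hO
  have key : ∀ c d : ℕ, c < d → d < 2 * k + 1 → ¬ RB k R G (scy 0 k 0 c) (scy 0 k 0 d) := by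
    intro c d hcd hd h
    rcases Nat.mod_two_eq_zero_or_one c with h1 | h1
    · rcases Nat.mod_two_eq_zero_or_one d with h2 | h2
      · exact main hk hR hO h1 h2 hcd hd h
      · obtain ⟨i, rfl⟩ : ∃ i, d = 2 * i + 1 := ⟨d / 2, by omega⟩
        exact (hO i (by omega)).1 c (by omega) (by omega) (Relation.EqvGen.symm _ _ h)
    · obtain ⟨i, rfl⟩ : ∃ i, c = 2 * i + 1 := ⟨c / 2, by omega⟩
      exact (hO i (by omega)).1 d (by omega) (by omega) h
  intro c d hc hd hcd h
  rcases lt_or_gt_of_ne hcd with h1 | h1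
  · exact key c d h1 hd h
  · exact key d c h1 hc (Relation.EqvGen.symm _ _ h)

end Pool.Agent.W658.KG
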