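import Pool.Agent.W658.KG.Stm
import Pool.Agent.W808.KY.T_ADJ
import Pool.Agent.W801.OS.T_CMP

/-!
# Upper bound for the `2 k + 1` arm event of the plane: assembly
-/

set_option autoImplicit false

namespace Pool.Agent.W658.KG
open H974 H906.Cyl H12S Finset
open Pool.Agent.H160R2.ML (nm)
open Pool.Agent.W801.OU (RZ LZ Dg nrm zp Cor bxz)
open Pool.Agent.W808.KY (scy RB SEy uY H0 E0)

namespace THON

/-- `k` clusters are enough -/
theorem ok_sey (hD : S_D2) (k R : ℕ) (G : Set Edg) (hk : 2 ≤ k) (hR : 2 * k + 2 ≤ R)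
    (h : OK k R G) : SEy k R G := by
  have h1 := hD k R G hk hR h
  refine ⟨h1, fun c hc => ?_⟩
  obtain ⟨x, y, e, e', h2, -, h3, -, h4, -⟩ :=
    Pool.Agent.W808.KY.t_ADJ R k G (by omega) hR h1 c ((c + 1) % (2 * k + 1)) hc rfl
  refine ⟨x, h3, e, h2, ?_⟩
  rcases h4 with h4 | h4
  · exact Or.inl h4.1
  · exact Or.inr h4.1

/-- locality -/
theorem lz_local (k r : ℕ) (G : Finset Edg) :
    LZ ({0} : Set ℤ) (bxz r ∩ H0 k) ((↑G : Set Edg) ∪ E0) =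
      LZ {0} (bxz r ∩ H0 k) ((↑(G ∩ boxE r) : Set Edg) ∪ E0) := by
  funext x y
  unfold LZ
  refine propext (exists_congr fun e => and_congr_right fun he => ?_)
  have h1 : e ∈ boxE r := Pool.Agent.W801.OS.TCMP.bxz_iff.1 he.1
  have h2 : e ∈ ((↑(G ∩ boxE r) : Set Edg) ∪ E0) ↔ e ∈ ((↑G : Set Edg) ∪ E0) := by
    rw [Set.mem_union, Set.mem_union, Finset.mem_coe, Finset.mem_coe, Finset.mem_inter]
    exact ⟨fun h => h.imp (fun h => h.1) id, fun h => h.imp (fun h => ⟨h, h1⟩) id⟩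
  rw [h2]

theorem sey_local (k r : ℕ) (G : Finset Edg) :
    SEy k r (↑G : Set Edg) ↔ SEy k r (↑(G ∩ boxE r) : Set Edg) := by
  unfold SEy Pool.Agent.W808.KY.RB RZ
  rw [lz_local]

/-- the arm event of the plane -/
theorem tk_le (hC : S_CMP) (hD : S_D2) (k R : ℕ) (hk : 2 ≤ k) (hR : 40 * (k + 1) ≤ R) :
    Pr (fun _ => (1 / 2 : ℝ)) (boxE R) (fun F => TK k R (↑F : Set Edg)) ≤ uY k (R / 20) := by
  refine (hC k R hk hR).trans ?_
  have hsub : boxE (R / 20) ⊆ boxE (4 * R) := by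
    intro e he
    rw [← Pool.Agent.W801.OS.TCMP.bxz_iff] at he ⊢
    obtain ⟨h1, h2⟩ := he
    have h3 : ((R / 20 : ℕ) : ℤ) ≤ ((4 * R : ℕ) : ℤ) := by
      have := Nat.div_le_self R 20
      omega
    exact ⟨h1.trans h3, h2.trans h3⟩
  have h1 : Pr (fun _ => (1 / 2 : ℝ)) (boxE (4 * R)) (fun G => OK k (R / 20 : ℕ) (↑G : Set Edg)) ≤
      Pr (fun _ => (1 / 2 : ℝ)) (boxE (4 * R)) (fun G => SEy k (R / 20 : ℕ) (↑G : Set Edg)) := by
    refine Pr_mono (okq (by norm_num) (by norm_num)) (fun G _ h => ?_)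
    exact ok_sey hD k (R / 20) _ hk (by omega) h
  refine h1.trans (le_of_eq ?_)
  unfold uY
  exact Pr_local hsub fun G _ => sey_local _ _ _

end THON

theorem t_HON : S_CMP → S_D2 → Pool.Agent.W808.KY.S_UY → S_HON := by
  intro hCMP hD2 hUY k hk
  obtain ⟨C, hC, h⟩ := hUY k hk
  set a : ℝ := (k : ℝ) * (k + 1) / 3 with ha
  have ha0 : 0 ≤ a := by positivity
  refine ⟨C * (1 / 40 : ℝ) ^ (-a) + ((40 * (k + 1) : ℕ) : ℝ) ^ a, ?_, fun R hR => ?_⟩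
  · have h1 : 0 < (1 / 40 : ℝ) ^ (-a) := Real.rpow_pos_of_pos (by norm_num) _
    have h2 : 0 ≤ ((40 * (k + 1) : ℕ) : ℝ) ^ a := Real.rpow_nonneg (Nat.cast_nonneg _) _
    have h3 := mul_pos hC h1
    linarith
  have hR0 : (0 : ℝ) < R := by exact_mod_cast hR
  have hx : 0 ≤ (R : ℝ) ^ (-a) := Real.rpow_nonneg hR0.le _
  rcases Nat.lt_or_ge R (40 * (k + 1)) with h1 | h1
  · refine (Pr_le_one (okq (by norm_num) (by norm_num)) _ _).trans ?_
    have h2 : (1 : ℝ) ≤ ((40 * (k + 1) : ℕ) : ℝ) ^ a * (R : ℝ) ^ (-a) := by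
      rw [Real.rpow_neg hR0.le, ← div_eq_mul_inv, one_le_div (Real.rpow_pos_of_pos hR0 _)]
      exact Real.rpow_le_rpow hR0.le (by exact_mod_cast h1.le) ha0
    rw [add_mul]
    have h3 : 0 ≤ C * (1 / 40 : ℝ) ^ (-a) * (R : ℝ) ^ (-a) :=
      mul_nonneg (mul_nonneg hC.le (Real.rpow_nonneg (by norm_num) _)) hx
    linarith
  · refine (THON.tk_le hCMP hD2 k R hk h1).trans ((h (R / 20) (by omega)).trans ?_)
    have h2 : (R : ℝ) / 40 ≤ ((R / 20 : ℕ) : ℝ) := by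
      rw [div_le_iff₀ (by norm_num)]
      exact_mod_cast (by omega : R ≤ R / 20 * 40)
    have h3 : ((R / 20 : ℕ) : ℝ) ^ (-a) ≤ ((R : ℝ) / 40) ^ (-a) :=
      Real.rpow_le_rpow_of_nonpos (by positivity) h2 (by linarith)
    have h4 : ((R : ℝ) / 40) ^ (-a) = (1 / 40 : ℝ) ^ (-a) * (R : ℝ) ^ (-a) := by
      rw [← Real.mul_rpow (by norm_num) hR0.le]
      congr 1
      ring
    rw [add_mul]
    have h5 : 0 ≤ ((40 * (k + 1) : ℕ) : ℝ) ^ a * (R : ℝ) ^ (-a) :=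
      mul_nonneg (Real.rpow_nonneg (Nat.cast_nonneg _) _) hx
    have h6 := mul_le_mul_of_nonneg_left (h3.trans h4.le) hC.le
    linarith

end Pool.Agent.W658.KG
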