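import Pool.Agent.W658.KG.Stm
import Pool.Agent.W801.OS.T_DSQ

/-!
# Images of the vertices near the tips
-/

set_option autoImplicit false

namespace Pool.Agent.W658.KG
open H974 H906.Cyl
open Pool.Agent.W801.OS (Evn Gau kap unK unS Phi dsq Cnr)
open Pool.Agent.W808.KY (scy)

namespace TPH

open Pool.Agent.W801.OS.TDSQ

theorem scy_sp (k c : ℕ) : (c ≤ k + 1 ∧ scy 0 k 0 c = ((c : ℤ) - 1, 0)) ∨
    (k + 1 < c ∧ scy 0 k 0 c = (2 * (k : ℤ) + 2 - c, -1)) := by
  unfold scy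
  split_ifs with h
  · left
    refine ⟨h, ?_⟩
    rw [Prod.mk.injEq]
    exact ⟨by push_cast; ring, rfl⟩
  · right
    refine ⟨by omega, ?_⟩
    rw [Prod.mk.injEq]
    exact ⟨by push_cast; ring, rfl⟩

variable {k : ℕ} {W : Set (ℤ × ℤ)} {m : ℤ × ℤ → ℤ}

theorem P1 (hE : Evn W) (hg : Gau W m) (hT : Tps k W m) {x j : ℤ} (hv : (x, 0) ∈ W)
    (h1 : j % 2 = 1) (h2 : -1 ≤ j) (h3 : j ≤ k) : x - m (x, 0) ≠ j := by
  intro h
  have e1 := hE _ hv
  simp only at e1
  by_cases hj : j = -1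
  · obtain ⟨a1, a2⟩ := hT.up 0 (by omega) (by omega) (by omega)
    have := KS hg a1 hv
    omega
  · obtain ⟨a1, a2⟩ := hT.up (j - 1) (by omega) (by omega) (by omega)
    have := KS hg a1 hv
    omega

theorem P2 (hE : Evn W) (hg : Gau W m) (hT : Tps k W m) {x j : ℤ} (hv : (x, -1) ∈ W)
    (h1 : j % 2 = 0) (h2 : 2 ≤ j) (h3 : j ≤ k) : x - m (x, -1) ≠ j - 1 := by
  intro h
  have e1 := hE _ hv
  simp only at e1
  obtain ⟨a1, a2⟩ := hT.up j (by omega) (by omega) (by omega)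
  obtain ⟨c, h4, h5⟩ := K1 hg hv a1 (by omega) (by omega)
  omega

theorem P3 (hk : 2 ≤ k) (hE : Evn W) (hg : Gau W m) (hT : Tps k W m) {x : ℤ}
    (hv : (x, -1) ∈ W) : x - m (x, -1) ≠ 0 := by
  intro h
  have e1 := hE _ hv
  simp only at e1
  obtain ⟨a1, a2⟩ := hT.up 2 (by omega) (by omega) (by omega)
  obtain ⟨c, h4, h5⟩ := K1 hg hv a1 (by omega) (by omega)
  have hx : x = 1 := by omega
  subst hx
  exact hT.no hv

theorem P4 (hg : Gau W m) (hT : Tps k W m) {x j : ℤ} (hv : (x, 0) ∈ W)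
    (h1 : j % 2 = 0) (h2 : 0 ≤ j) (h3 : j ≤ k) (h : x - m (x, 0) = j) :
    x = j ∧ m (x, 0) = 0 := by
  obtain ⟨a1, a2⟩ := hT.up j (by omega) (by omega) (by omega)
  have := KS hg a1 hv
  omega

theorem P5 (hg : Gau W m) (hT : Tps k W m) {x j : ℤ} (hv : (x, -1) ∈ W)
    (h1 : j % 2 = 1) (h2 : 3 ≤ j) (h3 : j ≤ k) (h : x - m (x, -1) = j - 1) :
    x = j ∧ m (x, -1) = 1 := by
  obtain ⟨a1, a2⟩ := hT.lo j (by omega) (by omega) (by omega)
  have := KS hg a1 hv
  omega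

end TPH

open Pool.Agent.W801.OS.TDSQ TPH in
theorem t_PH : S_PH := by
  intro k W m hk hE hg hT
  refine ⟨?_, ?_, ?_, ?_⟩
  · rintro ⟨x, y⟩ hv i hi heq
    rcases scy_sp k (2 * i) with ⟨a1, a2⟩ | ⟨a1, a2⟩ <;>
    rcases Phi_sp m x y with ⟨b1, b2⟩ | ⟨b1, b2⟩ <;>
    rw [a2, b2, Prod.mk.injEq] at heq <;> obtain ⟨c1, rfl⟩ := heq
    · push_cast at c1
      exact P1 hE hg hT hv (by omega) (by omega) (by omega) c1
    · omega
    · omega
    · push_cast at c1
      have u := unK_sp (x - m (x, -1))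
      exact P2 hE hg hT (j := 2 * (k : ℤ) + 2 - 2 * i) hv (by omega) (by omega) (by omega)
        (by omega)
  · rintro ⟨x, y⟩ hv heq
    rcases Phi_sp m x y with ⟨b1, b2⟩ | ⟨b1, b2⟩ <;>
    rw [b2, Prod.mk.injEq] at heq <;> obtain ⟨c1, rfl⟩ := heq
    · omega
    · have u := unK_sp (x - m (x, -1))
      exact P3 hk hE hg hT hv (by omega)
  · intro i hi
    unfold tp
    rcases scy_sp k (2 * i + 1) with ⟨a1, a2⟩ | ⟨a1, a2⟩
    · rw [a2]
      obtain ⟨d1, d2⟩ := hT.up (((2 * i + 1 : ℕ) : ℤ) - 1) (by push_cast; omega)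
        (by push_cast; omega) (by push_cast; omega)
      rcases Phi_sp m (((2 * i + 1 : ℕ) : ℤ) - 1) 0 with ⟨b1, b2⟩ | ⟨b1, b2⟩
      · rw [b2, d2, sub_zero]
      · omega
    · rw [a2]
      obtain ⟨d1, d2⟩ := hT.lo (2 * (k : ℤ) + 2 - ((2 * i + 1 : ℕ) : ℤ)) (by push_cast; omega)
        (by push_cast; omega) (by push_cast; omega)
      rcases Phi_sp m (2 * (k : ℤ) + 2 - ((2 * i + 1 : ℕ) : ℤ)) (-1) with ⟨b1, b2⟩ | ⟨b1, b2⟩
      · omega
      · rw [b2, d2]
        have u := unK_sp (2 * (k : ℤ) + 2 - ((2 * i + 1 : ℕ) : ℤ) - 1)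
        rw [Prod.mk.injEq]
        refine ⟨?_, rfl⟩
        push_cast at u ⊢
        omega
  · rintro ⟨x, y⟩ s d s' hv hc hd h1 h2 heq
    unfold Cnr at hc
    simp only at hc
    have e1 := hE _ hv
    simp only at e1
    have k1 := kap_sp m x y
    have u1 := unS_sp (s - kap m (x, y))
    rcases dsq_sp m (x, y) s d with ⟨a1, a2⟩ | ⟨a1, a2⟩ <;>
    rw [a2, Prod.mk.injEq] at heq <;> obtain ⟨c1, rfl⟩ := heq
    · omega
    have n1 := pair_ne (hd a1)
    refine ⟨?_, rfl⟩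
    by_cases hy : y = 0
    · subst hy
      have hx0 : x ≠ 0 := fun h => n1 ⟨h, rfl⟩
      have h0 := (hT.up 0 (by omega) (by omega) (by omega)).1
      have hK := K0 hg h0 hE hv
      have hxp : 0 < x := by omega
      have h3 : x - m (x, 0) = s' + (x - s) := by omega
      rcases Int.emod_two_eq_zero_or_one (s' + (x - s)) with h4 | h4
      · have := P4 hg hT hv h4 (by omega) (by omega) h3
        omega
      · exact absurd h3 (P1 hE hg hT hv h4 (by omega) (by omega))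
    · have hy' : y = -1 := by omega
      subst hy'
      have h3 : x - m (x, -1) = s' + (x - s) - 1 := by omega
      rcases Int.emod_two_eq_zero_or_one (s' + (x - s)) with h4 | h4
      · exact absurd h3 (P2 hE hg hT hv h4 (by omega) (by omega))
      · by_cases h5 : s' + (x - s) = 1
        · exact absurd (by omega) (P3 hk hE hg hT hv)
        · have := P5 hg hT hv h4 (by omega) (by omega) h3
          omega

end Pool.Agent.W658.KG
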