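import Pool.Agent.W658.KG.T_KL
import Pool.Agent.W658.KG.T_COR
import Pool.Agent.W658.KG.T_PH
import Pool.Agent.W658.KG.T_D2
import Pool.Agent.W658.KG.T_CMP
import Pool.Agent.W658.KG.T_HON
import Pool.Agent.W801.OS.T_DSQ

/-!
# Upper bound for the `2 k + 1` arm event of the plane, from the bound of the dislocated plane
-/

set_option autoImplicit false

namespace Pool.Agent.W658.KG

theorem a_GAU : S_GAU := t_GAU t_KL
theorem a_CMP : S_CMP := t_CMP a_GAU t_GB t_COR t_TPS t_PH Pool.Agent.W801.OS.t_DSQ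

/-- **upper bound for the `2 k + 1` arm event of the plane** -/
theorem b_HON (h : Pool.Agent.W808.KY.S_UY) : S_HON := t_HON a_CMP t_D2 h

end Pool.Agent.W658.KG
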