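import Pool.Agent.W801.OS.Stm
import Pool.Agent.W808.KY.Stm

/-!
# From the plane to the dislocated plane, `2 k + 1` arms: definitions and steps
(every step is a `Prop`; the file `T_X.lean` proves `t_X` from its hypotheses)

Analogue of `Pool.Agent.W801.OS` for `k ≥ 2`.  Coordinates `(j, t) = (x + y, x - y)`; the vertices of
the lattice are the points with `j + t` even.  The `k` tips are the sectors of odd index
`scy 0 k 0 (2 i + 1)`, `i < k`: the points `(i, 0)`, `i` even, `0 ≤ i ≤ k`, and `(j, -1)`, `j` odd,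
`3 ≤ j ≤ k`.  `W` = union of the open clusters of the tips; the corridor starts at `(1, -1)`.
-/

set_option autoImplicit false

namespace Pool.Agent.W658.KG
open H974 H906.Cyl
open Pool.Agent.H160R2.ML (nm)
open Pool.Agent.W801.OU (RZ LZ Dg nrm zp Cor bxz)
open Pool.Agent.W801.OS (Adj Ok2 cr Pa Evn Gau kap unK unS Phi dsq Cnr)
open Pool.Agent.W808.KY (scy RB SEy uY H0 E0)

/-! ## walks -/

/-- allowed steps: those of `OS`, and the steps of length `2` in a row -/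
def OkF (u v : ℤ × ℤ) : Prop := Ok2 u v ∨ (v.2 = u.2 ∧ (v.1 = u.1 + 2 ∨ v.1 = u.1 - 2))

/-- walks of `W` together with their crossing numbers -/
inductive Ch (W : Set (ℤ × ℤ)) : ℤ × ℤ → ℤ × ℤ → (ℤ × ℤ → ℤ) → Prop
  | nil (u : ℤ × ℤ) : u ∈ W → Ch W u u (fun _ => 0)
  | cons (u v w : ℤ × ℤ) (φ : ℤ × ℤ → ℤ) : Ch W u v φ → w ∈ W → OkF v w →
      Ch W u w (fun p => φ p + cr p v w)

/-- a corridor from `(1, -1)` to the right of `W` -/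
def Corr (W : Set (ℤ × ℤ)) : Prop := ∃ q : ℤ × ℤ, Pa W (1, -1) q ∧ ∀ u ∈ W, u.1 ≤ q.1

/-- `W` is connected by allowed steps -/
def Con (W : Set (ℤ × ℤ)) : Prop := (0, 0) ∈ W ∧ ∀ v ∈ W, ∃ φ, Ch W (0, 0) v φ

/-! ## tips -/

/-- the tip `i`, `i < k` -/
def tp (k i : ℕ) : ℤ × ℤ := scy 0 k 0 (2 * i + 1)

/-- the vertex of the tip `i` -/
def tv (k i : ℕ) : Vtx := (((tp k i).1 + (tp k i).2) / 2, ((tp k i).1 - (tp k i).2) / 2)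

/-- the tips and their gauge -/
structure Tps (k : ℕ) (W : Set (ℤ × ℤ)) (m : ℤ × ℤ → ℤ) : Prop where
  up : ∀ i : ℤ, 0 ≤ i → i ≤ k → i % 2 = 0 → (i, 0) ∈ W ∧ m (i, 0) = 0
  lo : ∀ j : ℤ, 3 ≤ j → j ≤ k → j % 2 = 1 → (j, -1) ∈ W ∧ m (j, -1) = 1
  no : (1, -1) ∉ W

/-! ## events -/

/-- the cluster of the tip `i` in the box, in the coordinates `(j, t)` -/
def Wi (k i : ℕ) (R : ℤ) (F : Set Edg) : Set (ℤ × ℤ) :=
  {p | ∃ v : Vtx, Reach (F ∩ bxz R) (tv k i) v ∧ p = (v.1 + v.2, v.1 - v.2)}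

/-- their union -/
def Wk (k : ℕ) (R : ℤ) (F : Set Edg) : Set (ℤ × ℤ) := {p | ∃ i < k, p ∈ Wi k i R F}

/-- `2 k + 1` arms at the origin: the edges between the tips are closed, the open clusters of the `k`
tips are pairwise different and reach the boundary of the box, and so does a lattice path from the
vertex `(0, 1)` which avoids them -/
def TK (k : ℕ) (R : ℤ) (F : Set Edg) : Prop :=
  (∀ s : ℤ, -1 ≤ s → s < k → edz s (-1) ∉ F) ∧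
  (∀ i j : ℕ, i < k → j < k → i ≠ j → ¬ Reach (F ∩ bxz R) (tv k i) (tv k j)) ∧
  (∀ i : ℕ, i < k → ∃ v : Vtx, nm v = R ∧ Reach (F ∩ bxz R) (tv k i) v) ∧
  ∃ q : Vtx, nm q = R ∧ (∀ i : ℕ, i < k → ¬ Reach (F ∩ bxz R) (tv k i) (0, 1)) ∧
    Reach {e | e ∈ bxz R ∧ ∀ i : ℕ, i < k → ¬ Reach (F ∩ bxz R) (tv k i) (src e) ∧
      ¬ Reach (F ∩ bxz R) (tv k i) (tgt e)} (0, 1) q

/-- dislocated plane: the clusters of the `k` sectors of odd index reach the boundary of the box and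
contain no other sector -/
def OK (k : ℕ) (R : ℤ) (G : Set Edg) : Prop := ∀ i : ℕ, i < k →
  (∀ d : ℕ, d < 2 * k + 1 → d ≠ 2 * i + 1 →
    ¬ RB k R G (scy 0 k 0 (2 * i + 1)) (scy 0 k 0 d)) ∧
  ∃ x : ℤ × ℤ, RB k R G (scy 0 k 0 (2 * i + 1)) x ∧ ∃ e ∉ bxz R, Cor {0} 0 e x ∨ Cor {0} 1 e x

/-! ## winding numbers (analogues of `OS.S_KL`, `OS.S_GAU`, `OS.S_GB`, `OS.S_COR`) -/

def S_KL : Prop := ∀ W : Set (ℤ × ℤ), Evn W → Corr W → ∀ (a b : ℤ × ℤ) (φ : ℤ × ℤ → ℤ), Ch W a b φ →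
  (b.2 = a.2 ∨ b.2 = a.2 + 1) → ¬ (b = (0, 0) ∧ a.2 = -1) →
  (a.1 = b.1 ∧ φ (0, 0) + cr (0, 0) b a = 0) ∨ 2 * |φ (0, 0) + cr (0, 0) b a| + 1 ≤ |b.1 - a.1|

/-- existence of a gauge -/
def S_GAU : Prop := ∀ W : Set (ℤ × ℤ), Evn W → Corr W → Con W → ∃ m : ℤ × ℤ → ℤ, Gau W m

/-- the gauge is bounded -/
def S_GB : Prop := ∀ (W : Set (ℤ × ℤ)) (m : ℤ × ℤ → ℤ) (R : ℤ), Evn W → Con W → Gau W m → 1 ≤ R →
  (∀ u ∈ W, |u.1| ≤ 2 * R) → ∀ v ∈ W, |m v| ≤ R ∧ |kap m v| ≤ R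

/-- the clusters of the arm event -/
def S_COR : Prop := ∀ (k : ℕ) (R : ℤ) (F : Set Edg), 2 ≤ k → (k : ℤ) + 1 ≤ R → TK k R F →
  Evn (Wk k R F) ∧ Corr (Wk k R F) ∧ Con (Wk k R F) ∧ (∀ u ∈ Wk k R F, |u.1| + |u.2| ≤ 2 * R) ∧
  (∀ i < k, tp k i ∈ Wi k i R F) ∧ (1, -1) ∉ Wk k R F

/-- the gauge of the tips -/
def S_TPS : Prop := ∀ (k : ℕ) (W : Set (ℤ × ℤ)) (m : ℤ × ℤ → ℤ), 2 ≤ k → Gau W m →
  (∀ i < k, tp k i ∈ W) → (1, -1) ∉ W → Tps k W m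

/-! ## the map -/

/-- images of the vertices near the tips -/
def S_PH : Prop := ∀ (k : ℕ) (W : Set (ℤ × ℤ)) (m : ℤ × ℤ → ℤ), 2 ≤ k → Evn W → Gau W m →
  Tps k W m →
  (∀ v ∈ W, ∀ i : ℕ, i ≤ k → Phi m v ≠ scy 0 k 0 (2 * i)) ∧
  (∀ v ∈ W, Phi m v ≠ (1, -1)) ∧
  (∀ i : ℕ, i < k → Phi m (tp k i) = tp k i) ∧
  (∀ (v : ℤ × ℤ) (s d s' : ℤ), v ∈ W → Cnr v s d → (d < 0 → v ≠ (0, 0)) → 1 ≤ s' → s' < k →
    dsq m v s d = (s', -1) → s = s' ∧ d = -1)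

/-- **comparison of the plane with the dislocated plane** (from `S_GAU`, `S_GB`, `S_COR`, `S_TPS`,
`S_PH` and `OS.t_DSQ : OS.S_DSQ`) -/
def S_CMP : Prop := ∀ k R : ℕ, 2 ≤ k → 40 * (k + 1) ≤ R →
  Pr (fun _ => (1 / 2 : ℝ)) (boxE R) (fun F => TK k R (↑F : Set Edg)) ≤
    Pr (fun _ => (1 / 2 : ℝ)) (boxE (4 * R)) (fun G => OK k (R / 20 : ℕ) (↑G : Set Edg))

/-! ## `k` clusters are enough -/

/-- the sectors are pairwise not connected -/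
def S_D2 : Prop := ∀ (k R : ℕ) (G : Set Edg), 2 ≤ k → 2 * k + 2 ≤ R → OK k R G →
  ∀ c d : ℕ, c < 2 * k + 1 → d < 2 * k + 1 → c ≠ d → ¬ RB k R G (scy 0 k 0 c) (scy 0 k 0 d)

/-- **upper bound for the `2 k + 1` arm event of the plane** (final statement, from `S_CMP`, `S_D2`,
`KY.t_ADJ` and `KY.S_UY`) -/
def S_HON : Prop := ∀ k : ℕ, 2 ≤ k → ∃ C : ℝ, 0 < C ∧ ∀ R : ℕ, 1 ≤ R →
  Pr (fun _ => (1 / 2 : ℝ)) (boxE R) (fun F => TK k R (↑F : Set Edg)) ≤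
    C * (R : ℝ) ^ (-((k : ℝ) * (k + 1) / 3))

end Pool.Agent.W658.KG
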