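import Pool.Agent.W658.KG.Stm

/-!
# The winding number inequality for the clusters of the tips, existence and boundedness of the gauge,
the gauge of the tips

Adapted from `Pool.Agent.W801.OS.T_KL` and `Pool.Agent.W801.OS.T_GAU`.
-/

set_option autoImplicit false

namespace Pool.Agent.W658.KG
open Pool.Agent.W801.OS (Adj Ok2 cr Pa Evn Gau kap unK unS Phi dsq Cnr)
open Pool.Agent.W808.KY (scy)

namespace KLpriv

/-- indicator of the half-line to the right of `p` -/
def g (p u : ℤ × ℤ) : ℤ := if u.2 = p.2 ∧ p.1 < u.1 then 1 else 0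

/-- upward move -/
def Up (W : Set (ℤ × ℤ)) (p p' : ℤ × ℤ) : Prop :=
  (p.1 + p.2) % 2 = 0 ∧ p ∉ W ∧ p'.2 = p.2 + 1 ∧ (p'.1 = p.1 + 1 ∨ p'.1 = p.1 - 1) ∧
    (p' ∉ W ∨ p' = (0, 0))

lemma ch_end {W : Set (ℤ × ℤ)} {a b : ℤ × ℤ} {φ : ℤ × ℤ → ℤ} (h : Ch W a b φ) : b ∈ W := by
  cases h with
  | nil hu => exact hu
  | cons v w φ h hw ho => exact hw

lemma ch_start {W : Set (ℤ × ℤ)} {a b : ℤ × ℤ} {φ : ℤ × ℤ → ℤ} (h : Ch W a b φ) : a ∈ W := by
  induction h with
  | nil hu => exact hu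
  | cons v w φ h hw ho ih => exact ih

lemma cr_down {x u v : ℤ × ℤ} (h : v.2 = u.2 - 1) : cr x u v = g x u := by
  unfold cr g
  by_cases h1 : u.2 = x.2 ∧ x.1 < u.1
  · rw [if_pos ⟨h1.1, by omega, h1.2⟩, if_pos h1]
  · rw [if_neg (fun q => h1 ⟨q.1, q.2.2⟩), if_neg (by rintro ⟨q1, q2, q3⟩; omega), if_neg h1]

lemma cr_up {x u v : ℤ × ℤ} (h : v.2 = u.2 + 1) : cr x u v = - g x v := by
  unfold cr g
  by_cases h1 : v.2 = x.2 ∧ x.1 < v.1
  · rw [if_neg (by rintro ⟨q1, q2, q3⟩; omega), if_pos ⟨h1.1, by omega, h1.2⟩, if_pos h1]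
  · rw [if_neg (by rintro ⟨q1, q2, q3⟩; omega), if_neg (fun q => h1 ⟨q.1, q.2.2⟩), if_neg h1]
    rfl

lemma cr_flat {x u v : ℤ × ℤ} (h : u.2 = v.2) : cr x u v = 0 := by
  unfold cr
  rw [if_neg (by rintro ⟨q1, q2, q3⟩; omega), if_neg (by rintro ⟨q1, q2, q3⟩; omega)]

lemma core {W : Set (ℤ × ℤ)} (hE : Evn W) {p p' x y : ℤ × ℤ} (hp : Up W p p') (hx : x ∈ W)
    (hy : y ∈ W) (h2 : x.2 = y.2 + 1) (h1 : x.1 = y.1 + 1 ∨ x.1 = y.1 - 1)
    (h0 : ¬ (x = (0, 0) ∧ y.2 = -1)) : g p' x = g p y := by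
  obtain ⟨hpar, hpW, k2, k1, k3⟩ := hp
  have ex := hE x hx
  have ey := hE y hy
  have hpy : ¬ (y.1 = p.1 ∧ y.2 = p.2) := by
    rintro ⟨q1, q2⟩
    exact hpW (by rw [← show y = p from Prod.ext q1 q2]; exact hy)
  have hpx : ¬ (x.1 = p'.1 ∧ x.2 = p'.2) := by
    rintro ⟨q1, q2⟩
    have q3 : x = p' := Prod.ext q1 q2
    rcases k3 with k3 | k3
    · exact k3 (q3 ▸ hx)
    · refine h0 ⟨q3.trans k3, ?_⟩
      rw [q3, k3] at h2
      have : (0 : ℤ) = y.2 + 1 := h2
      omega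
  unfold g
  by_cases hr : y.2 = p.2
  · have hr' : x.2 = p'.2 := by omega
    have hy1 : y.1 ≠ p.1 := fun q => hpy ⟨q, hr⟩
    have hx1 : x.1 ≠ p'.1 := fun q => hpx ⟨q, hr'⟩
    have : p'.1 < x.1 ↔ p.1 < y.1 := by
      rcases h1 with h1 | h1 <;> rcases k1 with k1 | k1 <;> constructor <;> intro q <;> omega
    by_cases hq : p.1 < y.1
    · rw [if_pos ⟨hr', this.mpr hq⟩, if_pos ⟨hr, hq⟩]
    · rw [if_neg (fun q => hq (this.mp q.2)), if_neg (fun q => hq q.2)]
  · rw [if_neg (by rintro ⟨q1, q2⟩; omega), if_neg (fun q => hr q.1)]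

/-- a step of length two in a row does not change the side of a vertex outside `W` -/
lemma g_flat {W : Set (ℤ × ℤ)} (hE : Evn W) {p u v : ℤ × ℤ} (hpar : (p.1 + p.2) % 2 = 0)
    (hpW : p ∉ W) (hu : u ∈ W) (hv : v ∈ W) (h2 : v.2 = u.2)
    (h1 : v.1 = u.1 + 2 ∨ v.1 = u.1 - 2) : g p v = g p u := by
  have eu := hE u hu
  have ev := hE v hv
  have hpu : ¬ (u.1 = p.1 ∧ u.2 = p.2) := by
    rintro ⟨q1, q2⟩
    exact hpW (by rw [← show u = p from Prod.ext q1 q2]; exact hu)
  have hpv : ¬ (v.1 = p.1 ∧ v.2 = p.2) := by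
    rintro ⟨q1, q2⟩
    exact hpW (by rw [← show v = p from Prod.ext q1 q2]; exact hv)
  unfold g
  by_cases hr : u.2 = p.2
  · have hr' : v.2 = p.2 := by omega
    have hu1 : u.1 ≠ p.1 := fun q => hpu ⟨q, hr⟩
    have hv1 : v.1 ≠ p.1 := fun q => hpv ⟨q, hr'⟩
    by_cases hq : p.1 < u.1
    · rw [if_pos (show v.2 = p.2 ∧ p.1 < v.1 from ⟨hr', by rcases h1 with h1 | h1 <;> omega⟩),
        if_pos (show u.2 = p.2 ∧ p.1 < u.1 from ⟨hr, hq⟩)]
    · rw [if_neg (show ¬ (v.2 = p.2 ∧ p.1 < v.1) by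
        rintro ⟨-, q⟩
        rcases h1 with h1 | h1 <;> omega), if_neg (show ¬ (u.2 = p.2 ∧ p.1 < u.1) from
        fun q => hq q.2)]
  · rw [if_neg (by rintro ⟨q1, q2⟩; omega), if_neg (fun q => hr q.1)]

lemma step {W : Set (ℤ × ℤ)} (hE : Evn W) {p p' u v : ℤ × ℤ} (hp : Up W p p') (hu : u ∈ W)
    (hv : v ∈ W) (hoF : OkF u v) : cr p' u v - cr p u v = g p v - g p u := by
  rcases hoF with ho | ⟨f1, f2⟩
  swap
  · rw [cr_flat f1.symm, cr_flat f1.symm, g_flat hE hp.1 hp.2.1 hu hv f1 f2]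
    ring
  obtain ⟨⟨a1, a2⟩, o1, o2⟩ := ho
  rcases a2 with a2 | a2
  · rw [cr_up a2, cr_up a2, core hE hp hv hu a2 a1 o2]
    ring
  · rw [cr_down a2, cr_down a2, core hE hp hu hv (by omega) (by omega) o1]

lemma chain {W : Set (ℤ × ℤ)} (hE : Evn W) {p p' : ℤ × ℤ} (hp : Up W p p') {a b : ℤ × ℤ}
    {φ : ℤ × ℤ → ℤ} (h : Ch W a b φ) : φ p' - φ p = g p b - g p a := by
  induction h with
  | nil hu => simp
  | cons v w φ h hw ho ih =>
    have h1 := step hE hp (ch_end h) hw ho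
    show (φ p' + cr p' v w) - (φ p + cr p v w) = g p w - g p a
    linarith

lemma ivt (f : ℤ × ℤ → ℤ) (A : Finset ℤ) (R : ℤ × ℤ → ℤ × ℤ → Prop)
    (hR : ∀ u v, R u v → f u = f v ∨ (f v = f u + 1 ∧ f u ∈ A) ∨ (f u = f v + 1 ∧ f v ∈ A))
    (u v : ℤ × ℤ) (h : Relation.ReflTransGen R u v) : |f u - f v| ≤ A.card := by
  have key : ∀ n : ℤ, n ∉ A → (n < f u ↔ n < f v) := by
    intro n hn
    induction h with
    | refl => rfl
    | tail h1 h2 ih =>
      rename_i x y
      rw [ih]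
      rcases hR x y h2 with h3 | ⟨h3, h4⟩ | ⟨h3, h4⟩
      · rw [h3]
      · have : n ≠ f x := fun q => hn (q ▸ h4)
        omega
      · have : n ≠ f y := fun q => hn (q ▸ h4)
        omega
  rcases le_total (f u) (f v) with h1 | h1
  · have hs : Finset.Ico (f u) (f v) ⊆ A := by
      intro n hn
      rw [Finset.mem_Ico] at hn
      by_contra hA
      have := key n hA
      omega
    have hc := Finset.card_le_card hs
    rw [Int.card_Ico] at hc
    rw [abs_of_nonpos (by omega)]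
    omega
  · have hs : Finset.Ico (f v) (f u) ⊆ A := by
      intro n hn
      rw [Finset.mem_Ico] at hn
      by_contra hA
      have := key n hA
      omega
    have hc := Finset.card_le_card hs
    rw [Int.card_Ico] at hc
    rw [abs_of_nonneg (by omega)]
    omega

/-- change of the winding number along an upward move -/
lemma upf {W : Set (ℤ × ℤ)} (hE : Evn W) {p p' : ℤ × ℤ} (hp : Up W p p') {a b : ℤ × ℤ}
    {φ : ℤ × ℤ → ℤ} (h : Ch W a b φ) (hab : b.2 = a.2 ∨ b.2 = a.2 + 1)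
    (h0 : ¬ (b = (0, 0) ∧ a.2 = -1)) :
    (φ p' + cr p' b a = φ p + cr p b a) ∨
    (p.2 = a.2 ∧ (p.1 - a.1) % 2 = 0 ∧ a.1 < p.1 ∧ p.1 < b.1 ∧
      φ p' + cr p' b a = φ p + cr p b a + 1) ∨
    (p.2 = a.2 ∧ (p.1 - a.1) % 2 = 0 ∧ b.1 < p.1 ∧ p.1 < a.1 ∧
      φ p' + cr p' b a = φ p + cr p b a - 1) := by
  have h1 := chain hE hp h
  obtain ⟨hpar, hpW, h2, h3, h4⟩ := hp
  have ha := ch_start h
  have hb := ch_end h
  have ea := hE a ha
  have eb := hE b hb
  have hpa : ¬ (a.1 = p.1 ∧ a.2 = p.2) := by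
    rintro ⟨q1, q2⟩
    exact hpW (by rw [← show a = p from Prod.ext q1 q2]; exact ha)
  have hpb : ¬ (b.1 = p.1 ∧ b.2 = p.2) := by
    rintro ⟨q1, q2⟩
    exact hpW (by rw [← show b = p from Prod.ext q1 q2]; exact hb)
  rcases hab with hab | hab
  · rw [cr_flat hab, cr_flat hab]
    by_cases hr : a.2 = p.2
    · have hg : ∀ x : ℤ × ℤ, x.2 = p.2 → g p x = if p.1 < x.1 then 1 else 0 := by
        intro x hx
        unfold g
        by_cases hq : p.1 < x.1
        · rw [if_pos ⟨hx, hq⟩, if_pos hq]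
        · rw [if_neg (fun q => hq q.2), if_neg hq]
      rw [hg b (hab.trans hr), hg a hr] at h1
      have ha1 : a.1 ≠ p.1 := fun q => hpa ⟨q, hr⟩
      have hb1 : b.1 ≠ p.1 := fun q => hpb ⟨q, hab.trans hr⟩
      split_ifs at h1 <;> omega
    · left
      have hg : ∀ x : ℤ × ℤ, x.2 ≠ p.2 → g p x = 0 := by
        intro x hx
        unfold g
        rw [if_neg (fun q => hx q.1)]
      rw [hg b (by omega), hg a hr] at h1
      omega
  · have hba : a.2 = b.2 - 1 := by omega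
    rw [cr_down hba, cr_down hba]
    by_cases hr : a.2 = p.2
    · have hbr : b.2 = p'.2 := by omega
      have ha1 : a.1 ≠ p.1 := fun q => hpa ⟨q, hr⟩
      have hb1 : b.1 ≠ p'.1 := by
        intro q
        have q3 : b = p' := Prod.ext q hbr
        rcases h4 with h4 | h4
        · exact h4 (q3 ▸ hb)
        · refine h0 ⟨q3.trans h4, ?_⟩
          rw [q3, h4] at hab
          have : (0 : ℤ) = a.2 + 1 := hab
          omega
      have hg1 : g p' b = if p'.1 < b.1 then 1 else 0 := by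
        unfold g
        by_cases hq : p'.1 < b.1
        · rw [if_pos ⟨hbr, hq⟩, if_pos hq]
        · rw [if_neg (fun q => hq q.2), if_neg hq]
      have hg2 : g p a = if p.1 < a.1 then 1 else 0 := by
        unfold g
        by_cases hq : p.1 < a.1
        · rw [if_pos ⟨hr, hq⟩, if_pos hq]
        · rw [if_neg (fun q => hq q.2), if_neg hq]
      rw [hg1]
      rw [hg2] at h1
      rcases h3 with h3 | h3 <;> split_ifs at h1 ⊢ <;> omega
    · left
      have hg1 : g p' b = 0 := by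
        unfold g
        rw [if_neg (by rintro ⟨q1, q2⟩; omega)]
      have hg2 : g p a = 0 := by
        unfold g
        rw [if_neg (fun q => hr q.1)]
      rw [hg1]
      rw [hg2] at h1
      omega

/-- moves of the corridor -/
def Mv (W : Set (ℤ × ℤ)) (u v : ℤ × ℤ) : Prop := Up W u v ∨ Up W v u

lemma pa_mv {W : Set (ℤ × ℤ)} {p q : ℤ × ℤ} (h : Pa W p q) (hp : (p.1 + p.2) % 2 = 0) :
    Relation.ReflTransGen (Mv W) p q ∧ q ∉ W ∧ (q.1 + q.2) % 2 = 0 := by
  induction h with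
  | nil hu => exact ⟨Relation.ReflTransGen.refl, hu, hp⟩
  | cons v w h hw ha ih =>
    obtain ⟨i1, i2, i3⟩ := ih
    obtain ⟨a1, a2⟩ := ha
    have i4 : (w.1 + w.2) % 2 = 0 := by omega
    refine ⟨i1.tail ?_, hw, i4⟩
    rcases a2 with a2 | a2
    · left
      exact ⟨i3, i2, a2, a1, Or.inl hw⟩
    · right
      exact ⟨i4, hw, by omega, by omega, Or.inl i2⟩

lemma phi_zero {W : Set (ℤ × ℤ)} {q a b : ℤ × ℤ} {φ : ℤ × ℤ → ℤ} (hq : ∀ u ∈ W, u.1 ≤ q.1)
    (h : Ch W a b φ) : φ q = 0 := by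
  induction h with
  | nil hu => rfl
  | cons v w φ h hw ho ih =>
    show φ q + cr q v w = 0
    have h1 := hq v (ch_end h)
    have h2 := hq w hw
    rw [ih]
    unfold cr
    rw [if_neg (by rintro ⟨q1, q2, q3⟩; omega), if_neg (by rintro ⟨q1, q2, q3⟩; omega)]
    rfl

end KLpriv

open KLpriv in
theorem t_KL : S_KL := by
  intro W hE hC a b φ h hab h0
  obtain ⟨q, hpq, hq⟩ := hC
  obtain ⟨p, hp⟩ : ∃ p : ℤ × ℤ, p = (1, -1) := ⟨_, rfl⟩
  rw [← hp] at hpq
  have hppar : (p.1 + p.2) % 2 = 0 := by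
    rw [hp]; norm_num
  obtain ⟨m1, -, -⟩ := pa_mv hpq hppar
  have hpW : p ∉ W := by
    have : ∀ {x y : ℤ × ℤ}, Pa W x y → x ∉ W := by
      intro x y hxy
      induction hxy with
      | nil hu => exact hu
      | cons v w h hw ha ih => exact ih
    exact this hpq
  have m0 : Mv W (0, 0) p := by
    right
    refine ⟨hppar, hpW, ?_, ?_, Or.inr rfl⟩
    · rw [hp]; norm_num
    · rw [hp]; norm_num
  have m2 : Relation.ReflTransGen (Mv W) (0, 0) q := Relation.ReflTransGen.head m0 m1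
  set f : ℤ × ℤ → ℤ := fun x => φ x + cr x b a with hf
  set M : ℤ := (|b.1 - a.1| - 1) / 2 with hM
  have hfq : f q = 0 := by
    show φ q + cr q b a = 0
    have h1 := hq b (ch_end h)
    have h2 := hq a (ch_start h)
    rw [phi_zero hq h]
    unfold cr
    rw [if_neg (by rintro ⟨q1, q2, q3⟩; omega), if_neg (by rintro ⟨q1, q2, q3⟩; omega)]
    rfl
  have hbound : |f (0, 0) - f q| ≤ (M.toNat : ℤ) := by
    rcases le_total a.1 b.1 with hle | hle
    · set A : Finset ℤ := (Finset.Icc (1 : ℤ) M).image (fun j => f (a.1 + 2 * j, a.2)) with hA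
      have hAc : (A.card : ℤ) ≤ M.toNat := by
        have h1 : A.card ≤ (Finset.Icc (1 : ℤ) M).card := Finset.card_image_le
        rw [Int.card_Icc] at h1
        have h2 : (M + 1 - 1).toNat = M.toNat := by congr 1; ring
        rw [h2] at h1
        exact_mod_cast h1
      refine le_trans (ivt f A (Mv W) ?_ _ _ m2) hAc
      have key : ∀ u v, Up W u v → f u = f v ∨ (f v = f u + 1 ∧ f u ∈ A) := by
        intro u v huv
        rcases upf hE huv h hab h0 with h1 | ⟨h1, h2, h3, h4, h5⟩ | ⟨h1, h2, h3, h4, h5⟩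
        · left
          exact h1.symm
        · right
          refine ⟨h5, ?_⟩
          rw [hA, Finset.mem_image]
          refine ⟨(u.1 - a.1) / 2, ?_, ?_⟩
          · rw [Finset.mem_Icc, hM, abs_of_nonneg (by omega)]
            omega
          · have : ((a.1 + 2 * ((u.1 - a.1) / 2), a.2) : ℤ × ℤ) = u := by
              apply Prod.ext
              · show a.1 + 2 * ((u.1 - a.1) / 2) = u.1
                omega
              · exact h1.symm
            rw [this]
        · omega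
      intro u v huv
      rcases huv with huv | huv
      · rcases key u v huv with h1 | h1
        · exact Or.inl h1
        · exact Or.inr (Or.inl h1)
      · rcases key v u huv with h1 | h1
        · exact Or.inl h1.symm
        · exact Or.inr (Or.inr h1)
    · set A : Finset ℤ := (Finset.Icc (1 : ℤ) M).image (fun j => f (a.1 - 2 * j, a.2) - 1) with hA
      have hAc : (A.card : ℤ) ≤ M.toNat := by
        have h1 : A.card ≤ (Finset.Icc (1 : ℤ) M).card := Finset.card_image_le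
        rw [Int.card_Icc] at h1
        have h2 : (M + 1 - 1).toNat = M.toNat := by congr 1; ring
        rw [h2] at h1
        exact_mod_cast h1
      refine le_trans (ivt f A (Mv W) ?_ _ _ m2) hAc
      have key : ∀ u v, Up W u v → f u = f v ∨ (f u = f v + 1 ∧ f v ∈ A) := by
        intro u v huv
        rcases upf hE huv h hab h0 with h1 | ⟨h1, h2, h3, h4, h5⟩ | ⟨h1, h2, h3, h4, h5⟩
        · left
          exact h1.symm
        · omega
        · right
          have h6 : f v = f u - 1 := h5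
          refine ⟨by omega, ?_⟩
          rw [hA, Finset.mem_image]
          refine ⟨(a.1 - u.1) / 2, ?_, ?_⟩
          · rw [Finset.mem_Icc, hM, abs_of_nonpos (by omega)]
            omega
          · have : ((a.1 - 2 * ((a.1 - u.1) / 2), a.2) : ℤ × ℤ) = u := by
              apply Prod.ext
              · show a.1 - 2 * ((a.1 - u.1) / 2) = u.1
                omega
              · exact h1.symm
            rw [this, h6]
      intro u v huv
      rcases huv with huv | huv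
      · rcases key u v huv with h1 | h1
        · exact Or.inl h1
        · exact Or.inr (Or.inr h1)
      · rcases key v u huv with h1 | h1
        · exact Or.inl h1.symm
        · exact Or.inr (Or.inl h1)
  rw [hfq, sub_zero] at hbound
  have hf0 : f (0, 0) = φ (0, 0) + cr (0, 0) b a := rfl
  rw [← hf0]
  by_cases hd : a.1 = b.1
  · left
    refine ⟨hd, ?_⟩
    have h1 : M.toNat = 0 := by
      rw [hM, hd, sub_self, abs_zero]
      rfl
    rw [h1] at hbound
    have h2 : |f (0, 0)| ≤ 0 := by exact_mod_cast hbound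
    exact abs_nonpos_iff.mp h2
  · right
    have h1 : 1 ≤ |b.1 - a.1| := Int.one_le_abs (by omega)
    have h2 : (M.toNat : ℤ) = M := Int.toNat_of_nonneg (by omega)
    rw [h2] at hbound
    omega


namespace GauPriv

theorem cr_swap (p u v : ℤ × ℤ) : cr p v u = - cr p u v := by
  unfold cr
  split_ifs <;> omega

theorem cr_self (p v : ℤ × ℤ) : cr p v v = 0 := by
  unfold cr
  split_ifs <;> omega

theorem ok_symm {u v : ℤ × ℤ} (h : OkF u v) : OkF v u := by
  rcases h with h | h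
  · obtain ⟨⟨h1, h2⟩, h3, h4⟩ := h
    exact Or.inl ⟨⟨by omega, by omega⟩, h4, h3⟩
  · exact Or.inr ⟨by omega, by omega⟩

theorem app {W : Set (ℤ × ℤ)} {u v w : ℤ × ℤ} {φ ψ : ℤ × ℤ → ℤ} (h1 : Ch W u v φ)
    (h2 : Ch W v w ψ) : Ch W u w (fun p => φ p + ψ p) := by
  induction h2 with
  | nil hu =>
    have e : (fun p => φ p + 0) = φ := by funext p; simp
    rw [e]
    exact h1
  | cons b c χ _ hc hok ih =>
    have e : (fun p => φ p + (χ p + cr p b c)) = fun p => (φ p + χ p) + cr p b c := by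
      funext p; ring
    rw [e]
    exact Ch.cons _ _ _ _ ih hc hok

theorem mem_r {W : Set (ℤ × ℤ)} {u v : ℤ × ℤ} {φ : ℤ × ℤ → ℤ} (h : Ch W u v φ) : v ∈ W := by
  cases h with
  | nil hu => exact hu
  | cons _ _ _ _ hc _ => exact hc

theorem rev {W : Set (ℤ × ℤ)} {u v : ℤ × ℤ} {φ : ℤ × ℤ → ℤ} (h : Ch W u v φ) :
    Ch W v u (fun p => - φ p) := by
  induction h with
  | nil hu =>
    have e : (fun _ : ℤ × ℤ => - (0 : ℤ)) = fun _ => 0 := by funext p; simp
    rw [e]
    exact Ch.nil u hu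
  | cons b c χ h1 hc hok ih =>
    have h2 : Ch W c b (fun p => (fun _ => (0 : ℤ)) p + cr p c b) :=
      Ch.cons c c b (fun _ => 0) (Ch.nil c hc) (mem_r h1) (ok_symm hok)
    have h3 := app h2 ih
    have e : (fun p => - (χ p + cr p b c)) =
        fun p => ((fun _ => (0 : ℤ)) p + cr p c b) + - χ p := by
      funext p
      rw [cr_swap p b c]
      ring
    rw [e]
    exact h3

end GauPriv

open GauPriv

theorem t_GAU : S_KL → S_GAU := by
  classical
  intro hKL W hE hC hcon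
  obtain ⟨h0, hw⟩ := hcon
  choose Φ hΦ using hw
  obtain ⟨m, hm⟩ : ∃ m : ℤ × ℤ → ℤ, ∀ v (h : v ∈ W), m v = Φ v h (0, 0) :=
    ⟨fun v => if h : v ∈ W then Φ v h (0, 0) else 0, fun v h => by simp only [dif_pos h]⟩
  have uniq : ∀ (v : ℤ × ℤ) (ψ : ℤ × ℤ → ℤ), Ch W (0, 0) v ψ → ψ (0, 0) = m v := by
    intro v ψ hψ
    have hv := mem_r hψ
    have h1 := app (rev (hΦ v hv)) hψ
    rcases hKL W hE hC v v _ h1 (Or.inl rfl) (by
      rintro ⟨h2, h3⟩
      rw [h2] at h3
      simp at h3) with ⟨_, h2⟩ | h2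
    · rw [cr_self] at h2
      rw [hm v hv]
      linarith
    · rw [sub_self, abs_zero] at h2
      have := abs_nonneg (-Φ v hv (0, 0) + ψ (0, 0) + cr (0, 0) v v)
      linarith
  refine ⟨m, ⟨?_, ?_, ?_⟩⟩
  · exact (uniq (0, 0) _ (Ch.nil _ h0)).symm
  · intro u v hu hv hok
    have h1 := uniq v _ (Ch.cons _ _ _ _ (hΦ u hu) hv (Or.inl hok))
    rw [← h1, hm u hu]
  · intro a b ha hb hrow hne
    have h1 := app (rev (hΦ a ha)) (hΦ b hb)
    have h2 := hKL W hE hC a b _ h1 hrow hne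
    rw [hm a ha, hm b hb]
    have e : -Φ a ha (0, 0) + Φ b hb (0, 0) + cr (0, 0) b a =
        Φ b hb (0, 0) - Φ a ha (0, 0) + cr (0, 0) b a := by ring
    simp only [e] at h2
    exact h2

theorem t_GB : S_GB := by
  intro W m R hE hcon hG hR hb
  obtain ⟨h0, hw⟩ := hcon
  have row0 : ∀ v ∈ W, v.2 = 0 → |m v| ≤ R ∧ |kap m v| ≤ R := by
    intro v hv h2
    by_cases hv0 : v = (0, 0)
    · subst hv0
      unfold kap
      rw [hG.zero]
      simp
      omega
    · have h3 := hG.kl (0, 0) v h0 hv (Or.inl h2) (fun h => hv0 h.1)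
      have h4 : cr (0, 0) v (0, 0) = 0 := by
        unfold cr
        simp only
        split_ifs <;> omega
      rw [h4, hG.zero] at h3
      rcases h3 with ⟨h5, _⟩ | h5
      · exfalso
        apply hv0
        apply Prod.ext
        · exact h5.symm
        · exact h2
      · have h6 := hb v hv
        simp only [sub_zero, add_zero] at h5
        have h7 : |m v| + 1 ≤ R := by omega
        refine ⟨by omega, ?_⟩
        unfold kap
        split_ifs
        · refine (abs_add_le _ _).trans ?_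
          rw [abs_one]
          exact h7
        · rw [add_zero]
          omega
  have key : ∀ (v : ℤ × ℤ) (φ : ℤ × ℤ → ℤ), Ch W (0, 0) v φ → |m v| ≤ R ∧ |kap m v| ≤ R := by
    intro v φ h
    induction h with
    | nil hu => exact row0 _ hu rfl
    | cons u w χ h1 hw' hok ih =>
      have ih' := ih
      have hu := mem_r h1
      by_cases h2 : w.2 = 0
      · exact row0 w hw' h2
      · have hk : kap m w = m w := by
          unfold kap
          rw [if_neg (fun h => h2 h.1), add_zero]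
        rw [hk]
        rcases hok with hok | ⟨f1, f2⟩
        swap
        · have h3 := hG.kl u w hu hw' (Or.inl f1) (by
            rintro ⟨q1, q2⟩
            rw [q1] at h2
            exact h2 rfl)
          have h4 : cr (0, 0) w u = 0 := KLpriv.cr_flat f1
          have h5 : |w.1 - u.1| = 2 := by
            rcases f2 with f2 | f2
            · rw [f2, show u.1 + 2 - u.1 = (2 : ℤ) by ring]
              norm_num
            · rw [f2, show u.1 - 2 - u.1 = (-2 : ℤ) by ring]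
              norm_num
          have h6 : m w = m u := by
            rcases h3 with ⟨h3, -⟩ | h3
            · rcases f2 with f2 | f2 <;> omega
            · rw [h4, h5, add_zero] at h3
              have h7 : |m w - m u| = 0 := le_antisymm (by omega) (abs_nonneg _)
              have := abs_eq_zero.1 h7
              omega
          rw [h6]
          exact ⟨ih'.1, ih'.1⟩
        have h3 := hG.step u w hu hw' hok
        have h4 : m w = m u ∨ m w = kap m u := by
          unfold kap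
          unfold cr at h3
          simp only at h3
          split_ifs at h3 ⊢ <;> omega
        rcases h4 with h4 | h4
        · rw [h4]
          exact ⟨ih'.1, ih'.1⟩
        · rw [h4]
          exact ⟨ih'.2, ih'.2⟩
  intro v hv
  obtain ⟨φ, hφ⟩ := hw v hv
  exact key v φ hφ


namespace TpsPriv

theorem tp_up (k : ℕ) (a : ℕ) (h : 2 * a ≤ k) : tp k a = (2 * (a : ℤ), 0) := by
  unfold tp scy
  rw [if_pos (by omega)]
  apply Prod.ext
  · push_cast
    ring
  · rfl

theorem tp_lo (k : ℕ) (a : ℕ) (h : k < 2 * a) :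
    tp k a = (2 * (k : ℤ) + 1 - 2 * (a : ℤ), -1) := by
  unfold tp scy
  rw [if_neg (by omega)]
  apply Prod.ext
  · push_cast
    ring
  · rfl

theorem zero_up {k : ℕ} {W : Set (ℤ × ℤ)} {m : ℤ × ℤ → ℤ} (hk : 2 ≤ k) (hG : Gau W m)
    (ht : ∀ i < k, tp k i ∈ W) (a : ℕ) (ha : 2 * a ≤ k) :
    ((2 * (a : ℤ), 0) : ℤ × ℤ) ∈ W ∧ m (2 * (a : ℤ), 0) = 0 := by
  have hmem : ∀ a : ℕ, 2 * a ≤ k → ((2 * (a : ℤ), 0) : ℤ × ℤ) ∈ W := fun a ha => by
    rw [← tp_up k a ha]
    exact ht a (by omega)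
  refine ⟨hmem a ha, ?_⟩
  induction a with
  | zero =>
    have : ((2 * ((0 : ℕ) : ℤ), 0) : ℤ × ℤ) = (0, 0) := by norm_num
    rw [this]
    exact hG.zero
  | succ a ih =>
    have h1 := ih (by omega)
    have h2 := hG.kl (2 * (a : ℤ), 0) (2 * ((a + 1 : ℕ) : ℤ), 0) (hmem a (by omega))
      (hmem (a + 1) ha) (Or.inl rfl) (by
        rintro ⟨-, q⟩
        exact absurd q (by norm_num))
    have h3 : cr (0, 0) (2 * ((a + 1 : ℕ) : ℤ), 0) (2 * (a : ℤ), 0) = 0 := KLpriv.cr_flat rfl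
    rw [h3, h1] at h2
    rcases h2 with ⟨h2, -⟩ | h2
    · exfalso
      have h4 : 2 * (a : ℤ) = 2 * ((a + 1 : ℕ) : ℤ) := h2
      push_cast at h4
      omega
    · have h4 : |((2 * ((a + 1 : ℕ) : ℤ), 0) : ℤ × ℤ).1 - ((2 * (a : ℤ), 0) : ℤ × ℤ).1| = 2 := by
        show |2 * ((a + 1 : ℕ) : ℤ) - 2 * (a : ℤ)| = 2
        push_cast
        rw [show 2 * ((a : ℤ) + 1) - 2 * (a : ℤ) = 2 by ring]
        norm_num
      rw [h4, sub_zero, add_zero] at h2
      have h5 : |m (2 * ((a + 1 : ℕ) : ℤ), 0)| = 0 := le_antisymm (by omega) (abs_nonneg _)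
      exact abs_eq_zero.1 h5

end TpsPriv

open TpsPriv in
theorem t_TPS : S_TPS := by
  intro k W m hk hG ht hno
  have up : ∀ i : ℤ, 0 ≤ i → i ≤ k → i % 2 = 0 → (i, 0) ∈ W ∧ m (i, 0) = 0 := by
    intro i h0 hik h2
    obtain ⟨a, ha⟩ : ∃ a : ℕ, i = 2 * (a : ℤ) := ⟨(i / 2).toNat, by omega⟩
    rw [ha]
    exact zero_up hk hG ht a (by omega)
  refine ⟨up, ?_, hno⟩
  intro j h3 hjk h2
  obtain ⟨a, ha⟩ : ∃ a : ℕ, 2 * (a : ℤ) = 2 * (k : ℤ) + 1 - j :=
    ⟨((2 * (k : ℤ) + 1 - j) / 2).toNat, by omega⟩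
  have hmem : (j, -1) ∈ W := by
    have h4 := ht a (by omega)
    rw [tp_lo k a (by omega)] at h4
    have h5 : 2 * (k : ℤ) + 1 - 2 * (a : ℤ) = j := by omega
    rw [h5] at h4
    exact h4
  refine ⟨hmem, ?_⟩
  obtain ⟨u1, u2⟩ := up (j - 1) (by omega) (by omega) (by omega)
  have h4 := hG.kl (j, -1) (j - 1, 0) hmem u1 (Or.inr (by norm_num)) (by
    rintro ⟨q, -⟩
    have q1 : j - 1 = 0 := congrArg Prod.fst q
    omega)
  have h5 : cr (0, 0) (j - 1, 0) (j, -1) = 1 := by
    unfold cr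
    rw [if_pos ⟨rfl, by norm_num, by show (0 : ℤ) < j - 1; omega⟩]
  rw [h5, u2] at h4
  rcases h4 with ⟨h4, -⟩ | h4
  · exfalso
    have h6 : j = j - 1 := h4
    omega
  · have h6 : |((j - 1, 0) : ℤ × ℤ).1 - ((j, -1) : ℤ × ℤ).1| = 1 := by
      show |j - 1 - j| = 1
      rw [show j - 1 - j = (-1 : ℤ) by ring]
      norm_num
    rw [h6] at h4
    have h7 : |0 - m (j, -1) + 1| = 0 := le_antisymm (by omega) (abs_nonneg _)
    have := abs_eq_zero.1 h7
    omega

end Pool.Agent.W658.KG
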